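import Mathlib
import Pool.Agent.Helper669.VFinal

set_option autoImplicit false

/-!
# A forcing notion adding families of subsets of `λ` with few traces, and collapsing `κ` to `λ⁺`
-/

namespace Pool.Agent.W931.KH

open Cardinal Pool.Agent.Helper669.Forcing Pool.Agent.Helper669.K
open Pool.Agent.Helper669.KDelta (rec_choice small_iUnion small_biUnion small_union small_mono
  small_finite)

/-- The parameters. -/
structure Par (L K I : Type) [LinearOrder L] [LinearOrder K] where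
  lam : Cardinal.{0}
  kap : Cardinal.{0}
  τ : I → Cardinal.{0}
  hL : #L = lam
  hK : #K = kap
  hlam : lam.IsRegular
  hkap : kap.IsRegular
  hstrong : ∀ ν < kap, 2 ^ ν < kap
  hlk : lam < kap
  hτ0 : ∀ i, ℵ₀ ≤ τ i
  hτ : ∀ i, τ i < lam
  hI : #I < kap
  hKseg : ∀ b : K, #(Set.Iio b) < kap
  bddL : ∀ x : Set L, #x < lam → ∃ b, ∀ y ∈ x, y < b
  bddK : ∀ x : Set K, #x < kap → ∃ b, ∀ y ∈ x, y < b

section

variable {L K I : Type} [LinearOrder L] [LinearOrder K]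

/-- The conditions: `T i` is a family of subsets of `b` with few traces, `f i γ` is an element of
`T i`, and `g γ` is a function from `b` to `γ + 1`. -/
@[ext] structure Cd (Q : Par L K I) where
  b : L
  T : I → Set (Set L)
  A : Set K
  f : I → K → Set L
  g : K → L → K
  hT : ∀ i, ∀ t ∈ T i, t ⊆ Set.Iio b
  htr : ∀ i, ∀ x : Set L, #x ≤ Q.τ i → #((fun t => t ∩ x) '' T i) ≤ Q.τ i
  hT0 : ∀ i, ∅ ∈ T i
  hA : #A < Q.lam
  hf : ∀ i, ∀ γ, f i γ ∈ T i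
  hf0 : ∀ i, ∀ γ ∉ A, f i γ = ∅
  hg : ∀ γ ξ, g γ ξ ≤ γ
  hg0 : ∀ γ ξ, (γ ∉ A ∨ b ≤ ξ) → g γ ξ = γ

variable {Q : Par L K I}

/-- The order. -/
structure CLe (q p : Cd Q) : Prop where
  b : p.b ≤ q.b
  T : ∀ i, p.T i ⊆ q.T i
  tr : ∀ i, ∀ t ∈ q.T i, ∀ x ⊆ Set.Iio p.b, #x ≤ Q.τ i → ∃ t' ∈ p.T i, t ∩ x = t' ∩ x
  A : p.A ⊆ q.A
  f : ∀ i, ∀ γ ∈ p.A, ∀ ξ < p.b, ξ ∈ q.f i γ ↔ ξ ∈ p.f i γ
  few : ∀ i, ∀ ξ, p.b ≤ ξ → #{γ | γ ∈ p.A ∧ ξ ∈ q.f i γ} ≤ Q.τ i
  g : ∀ γ ∈ p.A, ∀ ξ, ξ < p.b → q.g γ ξ = p.g γ ξ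

theorem Cd.lt_of_mem (p : Cd Q) {i : I} {γ : K} {ξ : L} (h : ξ ∈ p.f i γ) : ξ < p.b :=
  p.hT i _ (p.hf i γ) h

theorem Cd.mem_A (p : Cd Q) {i : I} {γ : K} {ξ : L} (h : ξ ∈ p.f i γ) : γ ∈ p.A := by
  by_contra hcon
  rw [p.hf0 i γ hcon] at h
  exact h

instance : Preorder (Cd Q) where
  le q p := CLe q p
  le_refl p := by
    refine ⟨le_rfl, fun _ => subset_rfl, fun i t ht x _ _ => ⟨t, ht, rfl⟩, subset_rfl,
      fun _ _ _ _ _ => Iff.rfl, ?_, fun _ _ _ _ => rfl⟩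
    intro i ξ hξ
    have h1 : {γ | γ ∈ p.A ∧ ξ ∈ p.f i γ} = (∅ : Set K) := by
      ext γ
      simp only [Set.mem_ofPred_eq, Set.mem_empty_iff_false, iff_false, not_and]
      intro _ h
      exact absurd (p.lt_of_mem h) (not_lt.2 hξ)
    rw [h1, Cardinal.mk_eq_zero]
    exact zero_le
  le_trans r q p h h' := by
    refine ⟨h'.b.trans h.b, fun i => (h'.T i).trans (h.T i), ?_, h'.A.trans h.A, ?_, ?_, ?_⟩
    · intro i t ht x hx hc
      obtain ⟨t', ht', h1⟩ := h.tr i t ht x (hx.trans (Set.Iio_subset_Iio h'.b)) hc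
      obtain ⟨t'', ht'', h2⟩ := h'.tr i t' ht' x hx hc
      exact ⟨t'', ht'', h1.trans h2⟩
    · intro i γ hγ ξ hξ
      exact (h.f i γ (h'.A hγ) ξ (hξ.trans_le h'.b)).trans (h'.f i γ hγ ξ hξ)
    · intro i ξ hξ
      rcases le_or_gt q.b ξ with h1 | h1
      · refine (Cardinal.mk_le_mk_of_subset ?_).trans (h.few i ξ h1)
        intro γ hγ
        exact ⟨h'.A hγ.1, hγ.2⟩
      · refine (Cardinal.mk_le_mk_of_subset ?_).trans (h'.few i ξ hξ)
        intro γ hγ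
        exact ⟨hγ.1, (h.f i γ (h'.A hγ.1) ξ h1).1 hγ.2⟩
    · intro γ hγ ξ hξ
      exact (h.g γ (h'.A hγ) ξ (hξ.trans_le h'.b)).trans (h'.g γ hγ ξ hξ)

theorem le_def {q p : Cd Q} : q ≤ p ↔ CLe q p := Iff.rfl

open Classical in
/-- New labels. -/
noncomputable def lab (p : Cd Q) (A : Set K) (hA : #A < Q.lam) (f : I → K → Set L)
    (hf : ∀ i γ, f i γ ∈ p.T i) (g : K → L → K) (hg : ∀ γ ξ, g γ ξ ≤ γ) : Cd Q where
  b := p.b
  T := p.T
  A := A
  f i γ := if γ ∈ A then f i γ else ∅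
  g γ ξ := if γ ∈ A ∧ ξ < p.b then g γ ξ else γ
  hT := p.hT
  htr := p.htr
  hT0 := p.hT0
  hA := hA
  hf i γ := by
    split_ifs with h
    · exact hf i γ
    · exact p.hT0 i
  hf0 i γ h := if_neg h
  hg γ ξ := by
    split_ifs with h
    · exact hg γ ξ
    · exact le_rfl
  hg0 γ ξ h := by
    refine if_neg ?_
    rintro ⟨h1, h2⟩
    rcases h with h | h
    · exact h h1
    · exact absurd h2 (not_lt.2 h)

section

variable {p : Cd Q} {A : Set K} {hA : #A < Q.lam} {f : I → K → Set L}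
    {hf : ∀ i γ, f i γ ∈ p.T i} {g : K → L → K} {hg : ∀ γ ξ, g γ ξ ≤ γ}

@[simp] theorem lab_b : (lab p A hA f hf g hg).b = p.b := rfl

@[simp] theorem lab_T : (lab p A hA f hf g hg).T = p.T := rfl

@[simp] theorem lab_A : (lab p A hA f hf g hg).A = A := rfl

theorem lab_f {i : I} {γ : K} (h : γ ∈ A) : (lab p A hA f hf g hg).f i γ = f i γ := if_pos h

theorem lab_f' {i : I} {γ : K} (h : γ ∉ A) : (lab p A hA f hf g hg).f i γ = ∅ := if_neg h

theorem lab_g {γ : K} {ξ : L} (h : γ ∈ A) (h' : ξ < p.b) :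
    (lab p A hA f hf g hg).g γ ξ = g γ ξ := if_pos ⟨h, h'⟩

theorem lab_g' {γ : K} {ξ : L} (h : γ ∉ A ∨ p.b ≤ ξ) :
    (lab p A hA f hf g hg).g γ ξ = γ := (lab p A hA f hf g hg).hg0 γ ξ h

/-- The general way to obtain extensions: the labels of `q` are either kept, or equal to those
of `p0` and replaced by those of `p ≤ p0`. -/
theorem lab_le {p0 q : Cd Q} (hp : p ≤ p0) (hb : q.b = p0.b) (hT : q.T = p0.T) (hqA : q.A ⊆ A)
    (h1 : ∀ i, ∀ γ ∈ q.A, (γ ∈ p0.A ∧ q.f i γ = p0.f i γ ∧ f i γ = p.f i γ) ∨ f i γ = q.f i γ)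
    (h2 : ∀ γ ∈ q.A, (γ ∈ p0.A ∧ q.g γ = p0.g γ ∧ g γ = p.g γ) ∨ g γ = q.g γ) :
    lab p A hA f hf g hg ≤ q := by
  refine ⟨?_, ?_, ?_, ?_, ?_, ?_, ?_⟩
  · rw [hb]; exact hp.b
  · rw [hT]; exact hp.T
  · intro i t ht x hx hc
    rw [hb] at hx
    obtain ⟨t', ht', h3⟩ := hp.tr i t ht x hx hc
    exact ⟨t', by rw [hT]; exact ht', h3⟩
  · exact hqA
  · intro i γ hγ ξ hξ
    rw [lab_f (hqA hγ)]
    rcases h1 i γ hγ with ⟨h3, h4, h5⟩ | h3
    · rw [h4, h5]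
      exact hp.f i γ h3 ξ (by rw [← hb]; exact hξ)
    · rw [h3]
  · intro i ξ hξ
    rw [hb] at hξ
    refine (Cardinal.mk_le_mk_of_subset ?_).trans (hp.few i ξ hξ)
    rintro γ ⟨hγ, hγ2⟩
    rw [lab_f (hqA hγ)] at hγ2
    rcases h1 i γ hγ with ⟨h3, h4, h5⟩ | h3
    · rw [h5] at hγ2
      exact ⟨h3, hγ2⟩
    · rw [h3] at hγ2
      have h4 := q.lt_of_mem hγ2
      rw [hb] at h4
      exact absurd h4 (not_lt.2 hξ)
  · intro γ hγ ξ hξ
    have h6 : ξ < p.b := by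
      have h7 : q.b ≤ p.b := by rw [hb]; exact hp.b
      exact hξ.trans_le h7
    rw [lab_g (hqA hγ) h6]
    rcases h2 γ hγ with ⟨h3, h4, h5⟩ | h3
    · rw [h4, h5]
      exact hp.g γ h3 ξ (by rw [← hb]; exact hξ)
    · rw [h3]

end

/-- The restriction of a condition to the labels of the `γ < δ`. -/
noncomputable def res (p : Cd Q) (δ : K) : Cd Q :=
  lab p (p.A ∩ Set.Iio δ) ((Cardinal.mk_le_mk_of_subset Set.inter_subset_left).trans_lt p.hA)
    p.f p.hf p.g p.hg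

theorem res_A (p : Cd Q) (δ : K) : (res p δ).A = p.A ∩ Set.Iio δ := rfl

theorem res_A_sub (p : Cd Q) (δ : K) : (res p δ).A ⊆ Set.Iio δ := Set.inter_subset_right

theorem res_b (p : Cd Q) (δ : K) : (res p δ).b = p.b := rfl

theorem res_T (p : Cd Q) (δ : K) : (res p δ).T = p.T := rfl

theorem res_f (p : Cd Q) {δ : K} (i : I) {γ : K} (h : γ < δ) : (res p δ).f i γ = p.f i γ := by
  unfold res
  by_cases h1 : γ ∈ p.A
  · exact lab_f (show γ ∈ p.A ∩ Set.Iio δ from ⟨h1, h⟩)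
  · rw [lab_f' (show γ ∉ p.A ∩ Set.Iio δ from fun h2 => h1 h2.1), p.hf0 i γ h1]

theorem res_g (p : Cd Q) {δ : K} {γ : K} (h : γ < δ) : (res p δ).g γ = p.g γ := by
  funext ξ
  unfold res
  by_cases h1 : γ ∈ p.A
  · by_cases h2 : ξ < p.b
    · exact lab_g (show γ ∈ p.A ∩ Set.Iio δ from ⟨h1, h⟩) h2
    · rw [lab_g' (Or.inr (not_lt.1 h2)), p.hg0 γ ξ (Or.inr (not_lt.1 h2))]
  · rw [lab_g' (Or.inl (show γ ∉ p.A ∩ Set.Iio δ from fun h2 => h1 h2.1)),
      p.hg0 γ ξ (Or.inl h1)]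

theorem le_res (p : Cd Q) (δ : K) : p ≤ res p δ := by
  have h0 : CLe p p := le_refl p
  refine ⟨le_rfl, fun _ => subset_rfl, h0.tr, Set.inter_subset_left, ?_, ?_, ?_⟩
  · intro i γ hγ ξ _
    rw [res_f p i hγ.2]
  · intro i ξ hξ
    refine (Cardinal.mk_le_mk_of_subset ?_).trans (h0.few i ξ hξ)
    rintro γ ⟨hγ, hγ2⟩
    exact ⟨hγ.1, hγ2⟩
  · intro γ hγ ξ hξ
    rw [res_g p hγ.2]

/-- Two conditions are equal below `δ`. -/
theorem res_eq_iff {p q : Cd Q} {δ : K} : res p δ = res q δ ↔ p.b = q.b ∧ p.T = q.T ∧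
    p.A ∩ Set.Iio δ = q.A ∩ Set.Iio δ ∧ (∀ i, ∀ γ < δ, p.f i γ = q.f i γ) ∧
    ∀ γ < δ, p.g γ = q.g γ := by
  constructor
  · intro h
    have hA : (res p δ).A = (res q δ).A := by rw [h]
    have hb : (res p δ).b = (res q δ).b := by rw [h]
    have hT : (res p δ).T = (res q δ).T := by rw [h]
    refine ⟨hb, hT, hA, ?_, ?_⟩
    · intro i γ hγ
      rw [← res_f p i hγ, h, res_f q i hγ]
    · intro γ hγ
      rw [← res_g p hγ, h, res_g q hγ]
  · rintro ⟨hb, hT, hA, hf, hg⟩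
    apply Cd.ext
    · exact hb
    · exact hT
    · exact hA
    · funext i γ
      by_cases h1 : γ < δ
      · rw [res_f p i h1, res_f q i h1]
        exact hf i γ h1
      · rw [(res p δ).hf0 i γ (fun h => h1 h.2), (res q δ).hf0 i γ (fun h => h1 h.2)]
    · funext γ
      by_cases h1 : γ < δ
      · rw [res_g p h1, res_g q h1]
        exact hg γ h1
      · funext ξ
        rw [(res p δ).hg0 γ ξ (Or.inl fun h => h1 h.2), (res q δ).hg0 γ ξ (Or.inl fun h => h1 h.2)]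

theorem res_eq_self {p : Cd Q} {δ : K} (h : p.A ⊆ Set.Iio δ) : res p δ = p := by
  have hA : p.A ∩ Set.Iio δ = p.A := Set.inter_eq_left.2 h
  apply Cd.ext
  · rfl
  · rfl
  · exact hA
  · funext i γ
    by_cases h1 : γ < δ
    · exact res_f p i h1
    · rw [(res p δ).hf0 i γ (fun h => h1 h.2), p.hf0 i γ (fun h' => h1 (h h'))]
  · funext γ
    by_cases h1 : γ < δ
    · exact res_g p h1
    · funext ξ
      rw [(res p δ).hg0 γ ξ (Or.inl fun h => h1 h.2), p.hg0 γ ξ (Or.inl fun h' => h1 (h h'))]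

theorem res_mono {p q : Cd Q} (h : q ≤ p) (δ : K) : res q δ ≤ res p δ := by
  refine lab_le (p0 := p) (q := res p δ) h rfl rfl ?_ ?_ ?_
  · intro γ hγ
    exact ⟨h.A hγ.1, hγ.2⟩
  · intro i γ hγ
    exact Or.inl ⟨hγ.1, res_f p i hγ.2, rfl⟩
  · intro γ hγ
    exact Or.inl ⟨hγ.1, res_g p hγ.2, rfl⟩

/-- Amalgamation. -/
theorem amal {p r : Cd Q} {δ : K} (h : r ≤ res p δ) (hr : r.A ⊆ Set.Iio δ) :
    ∃ q, q ≤ p ∧ q ≤ r := by
  classical
  have hA : #(r.A ∪ p.A : Set K) < Q.lam :=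
    (Cardinal.mk_union_le _ _).trans_lt (Cardinal.add_lt_of_lt Q.hlam.aleph0_le r.hA p.hA)
  have hTr : ∀ i, p.T i ⊆ r.T i := h.T
  refine ⟨lab r (r.A ∪ p.A) hA (fun i γ => if γ < δ then r.f i γ else p.f i γ) ?_
    (fun γ ξ => if γ < δ then r.g γ ξ else p.g γ ξ) ?_, ?_, ?_⟩
  · intro i γ
    show (if γ < δ then r.f i γ else p.f i γ) ∈ r.T i
    split_ifs with h1
    · exact r.hf i γ
    · exact hTr i (p.hf i γ)
  · intro γ ξ
    show (if γ < δ then r.g γ ξ else p.g γ ξ) ≤ γ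
    split_ifs with h1
    · exact r.hg γ ξ
    · exact p.hg γ ξ
  · refine lab_le (p0 := res p δ) h rfl rfl Set.subset_union_right ?_ ?_
    · intro i γ hγ
      by_cases h1 : γ < δ
      · exact Or.inl ⟨⟨hγ, h1⟩, (res_f p i h1).symm, if_pos h1⟩
      · exact Or.inr (if_neg h1)
    · intro γ hγ
      by_cases h1 : γ < δ
      · refine Or.inl ⟨⟨hγ, h1⟩, (res_g p h1).symm, ?_⟩
        funext ξ
        exact if_pos h1
      · refine Or.inr ?_
        funext ξ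
        exact if_neg h1
  · refine lab_le (p0 := r) le_rfl rfl rfl Set.subset_union_left ?_ ?_
    · intro i γ hγ
      exact Or.inr (if_pos (hr hγ))
    · intro γ hγ
      refine Or.inr ?_
      funext ξ
      exact if_pos (hr hγ)

/-- Linked conditions: they differ only in the labels of the `γ ≥ δ`, and there only in the
components in `fr` and, if `gf`, in the labels `g`. -/
structure Lk (δ : K) (fr : Set I) (gf : Prop) (p q : Cd Q) : Prop where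
  b : p.b = q.b
  T : p.T = q.T
  A : p.A = q.A
  f : ∀ i γ, (γ < δ ∨ i ∉ fr) → p.f i γ = q.f i γ
  g : ∀ γ, (γ < δ ∨ ¬ gf) → p.g γ = q.g γ

theorem Lk.refl {δ : K} {fr : Set I} {gf : Prop} (p : Cd Q) : Lk δ fr gf p p :=
  ⟨rfl, rfl, rfl, fun _ _ _ => rfl, fun _ _ => rfl⟩

theorem Lk.symm {δ : K} {fr : Set I} {gf : Prop} {p q : Cd Q} (h : Lk δ fr gf p q) :
    Lk δ fr gf q p :=
  ⟨h.b.symm, h.T.symm, h.A.symm, fun i γ hh => (h.f i γ hh).symm, fun γ hh => (h.g γ hh).symm⟩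

theorem Lk.trans {δ : K} {fr : Set I} {gf : Prop} {p q r : Cd Q} (h : Lk δ fr gf p q)
    (h' : Lk δ fr gf q r) : Lk δ fr gf p r :=
  ⟨h.b.trans h'.b, h.T.trans h'.T, h.A.trans h'.A, fun i γ hh => (h.f i γ hh).trans (h'.f i γ hh),
    fun γ hh => (h.g γ hh).trans (h'.g γ hh)⟩

theorem Lk.mono {δ : K} {fr fr' : Set I} {gf gf' : Prop} {p q : Cd Q} (h : Lk δ fr gf p q)
    (h1 : fr ⊆ fr') (h2 : gf → gf') : Lk δ fr' gf' p q :=
  ⟨h.b, h.T, h.A, fun i γ hh => h.f i γ (hh.imp_right fun h3 h4 => h3 (h1 h4)),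
    fun γ hh => h.g γ (hh.imp_right fun h3 h4 => h3 (h2 h4))⟩

theorem Lk.res_eq {δ : K} {fr : Set I} {gf : Prop} {p q : Cd Q} (h : Lk δ fr gf p q) :
    res p δ = res q δ :=
  res_eq_iff.2 ⟨h.b, h.T, by rw [h.A], fun i γ hγ => h.f i γ (Or.inl hγ),
    fun γ hγ => h.g γ (Or.inl hγ)⟩

/-- Transfer of extensions along links. -/
theorem Lk.transfer {δ : K} {fr : Set I} {gf : Prop} {p q p' : Cd Q} (h : Lk δ fr gf p q)
    (hp : p' ≤ p) : ∃ q', q' ≤ q ∧ Lk δ fr gf p' q' := by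
  classical
  have hqT : ∀ i γ, q.f i γ ∈ p'.T i := by
    intro i γ
    apply hp.T
    rw [h.T]
    exact q.hf i γ
  have hlb : ∀ γ ξ, q.b ≤ ξ → q.g γ ξ = γ := fun γ ξ hξ => q.hg0 γ ξ (Or.inr hξ)
  refine ⟨lab p' p'.A p'.hA (fun i γ => if γ < δ ∨ i ∉ fr ∨ γ ∉ p.A then p'.f i γ else q.f i γ) ?_
    (fun γ ξ => if γ < δ ∨ ¬ gf ∨ γ ∉ p.A then p'.g γ ξ else q.g γ ξ) ?_, ?_, ?_⟩
  · intro i γ
    show (if γ < δ ∨ i ∉ fr ∨ γ ∉ p.A then p'.f i γ else q.f i γ) ∈ p'.T i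
    split_ifs with h1
    · exact p'.hf i γ
    · exact hqT i γ
  · intro γ ξ
    show (if γ < δ ∨ ¬ gf ∨ γ ∉ p.A then p'.g γ ξ else q.g γ ξ) ≤ γ
    split_ifs with h1
    · exact p'.hg γ ξ
    · exact q.hg γ ξ
  · refine lab_le (p0 := p) hp h.b.symm h.T.symm ?_ ?_ ?_
    · rw [← h.A]; exact hp.A
    · intro i γ hγ
      have hγ' : γ ∈ p.A := by rw [h.A]; exact hγ
      by_cases h1 : γ < δ ∨ i ∉ fr
      · refine Or.inl ⟨hγ', (h.f i γ h1).symm, if_pos ?_⟩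
        rcases h1 with h1 | h1
        · exact Or.inl h1
        · exact Or.inr (Or.inl h1)
      · refine Or.inr (if_neg ?_)
        rintro (h2 | h2 | h2)
        · exact h1 (Or.inl h2)
        · exact h1 (Or.inr h2)
        · exact h2 hγ'
    · intro γ hγ
      have hγ' : γ ∈ p.A := by rw [h.A]; exact hγ
      by_cases h1 : γ < δ ∨ ¬ gf
      · refine Or.inl ⟨hγ', (h.g γ h1).symm, ?_⟩
        funext ξ
        refine if_pos ?_
        rcases h1 with h1 | h1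
        · exact Or.inl h1
        · exact Or.inr (Or.inl h1)
      · refine Or.inr ?_
        funext ξ
        refine if_neg ?_
        rintro (h2 | h2 | h2)
        · exact h1 (Or.inl h2)
        · exact h1 (Or.inr h2)
        · exact h2 hγ'
  · refine ⟨rfl, rfl, rfl, ?_, ?_⟩
    · intro i γ hh
      by_cases h1 : γ ∈ p'.A
      · rw [lab_f h1, if_pos]
        rcases hh with h2 | h2
        · exact Or.inl h2
        · exact Or.inr (Or.inl h2)
      · rw [lab_f' h1, p'.hf0 i γ h1]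
    · intro γ hh
      funext ξ
      by_cases h1 : γ ∈ p'.A ∧ ξ < p'.b
      · rw [lab_g h1.1 h1.2, if_pos]
        rcases hh with h2 | h2
        · exact Or.inl h2
        · exact Or.inr (Or.inl h2)
      · rw [lab_g', p'.hg0 γ ξ]
        · by_contra hcon
          push Not at hcon
          exact h1 hcon
        · by_contra hcon
          push Not at hcon
          exact h1 hcon

/-- Adding elements to the domain. -/
theorem addA (p : Cd Q) (B : Set K) (hB : #B < Q.lam) : ∃ q ≤ p, q.b = p.b ∧ q.T = p.T ∧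
    q.A = p.A ∪ B ∧ q.f = p.f ∧ q.g = p.g := by
  have hA : #(p.A ∪ B : Set K) < Q.lam :=
    (Cardinal.mk_union_le _ _).trans_lt (Cardinal.add_lt_of_lt Q.hlam.aleph0_le p.hA hB)
  refine ⟨lab p (p.A ∪ B) hA p.f p.hf p.g p.hg, ?_, rfl, rfl, rfl, ?_, ?_⟩
  · exact lab_le (p0 := p) le_rfl rfl rfl Set.subset_union_left (fun i γ hγ => Or.inr rfl)
      (fun γ hγ => Or.inr rfl)
  · funext i γ
    by_cases h : γ ∈ p.A ∪ B
    · rw [lab_f h]
    · rw [lab_f' h, p.hf0 i γ (fun h' => h (Or.inl h'))]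
  · funext γ ξ
    by_cases h : γ ∈ p.A ∪ B ∧ ξ < p.b
    · rw [lab_g h.1 h.2]
    · rw [lab_g', p.hg0 γ ξ]
      · by_contra hcon
        push Not at hcon
        exact h ⟨Or.inl hcon.1, hcon.2⟩
      · by_contra hcon
        push Not at hcon
        exact h hcon

/-- Conditions with the same restriction have linked extensions. -/
theorem equalize {p q : Cd Q} {δ : K} (h : res p δ = res q δ) : ∃ p' ≤ p, ∃ q' ≤ q,
    Lk δ Set.univ True p' q' := by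
  obtain ⟨hb, hT, hA, hf, hg⟩ := res_eq_iff.1 h
  obtain ⟨p', hp', h1, h2, h3, h4, h5⟩ := addA p q.A q.hA
  obtain ⟨q', hq', k1, k2, k3, k4, k5⟩ := addA q p.A p.hA
  refine ⟨p', hp', q', hq', ?_, ?_, ?_, ?_, ?_⟩
  · rw [h1, k1, hb]
  · rw [h2, k2, hT]
  · rw [h3, k3, Set.union_comm]
  · intro i γ hh
    rcases hh with hh | hh
    · rw [h4, k4]
      exact hf i γ hh
    · exact absurd (Set.mem_univ i) hh
  · intro γ hh
    rcases hh with hh | hh
    · rw [h5, k5]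
      exact hg γ hh
    · exact absurd trivial hh

/-- Adding a point to the family of sets. -/
theorem extend (p : Cd Q) (b' : L) (hb : p.b < b') (γ0 : K) (hγ0 : γ0 ∈ p.A) (α : K)
    (hα : α ≤ γ0) : ∃ q ≤ p, q.b = b' ∧ q.A = p.A ∧ (∀ i, p.b ∈ q.f i γ0) ∧
      (∀ i, ∀ γ, γ ≠ γ0 → p.b ∉ q.f i γ) ∧ q.g γ0 p.b = α := by
  classical
  have hτ1 : ∀ i, (1 : Cardinal.{0}) ≤ Q.τ i := fun i => Cardinal.one_le_aleph0.trans (Q.hτ0 i)
  have hnb : ∀ i γ, p.b ∉ p.f i γ := fun i γ h => lt_irrefl _ (p.lt_of_mem h)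
  refine ⟨⟨b', fun i => insert (p.f i γ0 ∪ {p.b}) (p.T i), p.A,
    fun i γ => if γ = γ0 then p.f i γ0 ∪ {p.b} else p.f i γ,
    fun γ ξ => if γ = γ0 ∧ ξ = p.b then α else p.g γ ξ, ?_, ?_, ?_, p.hA, ?_, ?_, ?_, ?_⟩,
    ⟨hb.le, ?_, ?_, subset_rfl, ?_, ?_, ?_⟩, rfl, rfl, ?_, ?_, ?_⟩
  · intro i t ht
    rcases ht with rfl | ht
    · intro ξ hξ
      rcases hξ with hξ | hξ
      · exact (p.lt_of_mem hξ).trans hb
      · rw [Set.mem_singleton_iff.1 hξ]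
        exact hb
    · exact (p.hT i t ht).trans (Set.Iio_subset_Iio hb.le)
  · intro i x hx
    rw [Set.image_insert_eq]
    refine (Cardinal.mk_insert_le).trans ?_
    exact Cardinal.add_le_of_le (Q.hτ0 i) (p.htr i x hx) (hτ1 i)
  · intro i
    exact Or.inr (p.hT0 i)
  · intro i γ
    show (if γ = γ0 then p.f i γ0 ∪ {p.b} else p.f i γ) ∈ _
    split_ifs with h
    · exact Or.inl rfl
    · exact Or.inr (p.hf i γ)
  · intro i γ hγ
    show (if γ = γ0 then p.f i γ0 ∪ {p.b} else p.f i γ) = _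
    rw [if_neg (fun h => hγ (by rw [h]; exact hγ0))]
    exact p.hf0 i γ hγ
  · intro γ ξ
    show (if γ = γ0 ∧ ξ = p.b then α else p.g γ ξ) ≤ γ
    split_ifs with h
    · rw [h.1]; exact hα
    · exact p.hg γ ξ
  · intro γ ξ h
    show (if γ = γ0 ∧ ξ = p.b then α else p.g γ ξ) = γ
    rw [if_neg]
    · refine p.hg0 γ ξ (h.imp_right fun h' => hb.le.trans h')
    · rintro ⟨rfl, rfl⟩
      rcases h with h | h
      · exact h hγ0
      · exact absurd hb (not_lt.2 h)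
  · intro i
    exact Set.subset_insert _ _
  · intro i t ht x hx _
    rcases ht with rfl | ht
    · refine ⟨p.f i γ0, p.hf i γ0, ?_⟩
      ext ξ
      constructor
      · rintro ⟨h1 | h1, h2⟩
        · exact ⟨h1, h2⟩
        · rw [Set.mem_singleton_iff.1 h1] at h2
          exact absurd (hx h2) (lt_irrefl _)
      · rintro ⟨h1, h2⟩
        exact ⟨Or.inl h1, h2⟩
    · exact ⟨t, ht, rfl⟩
  · intro i γ hγ ξ hξ
    show ξ ∈ (if γ = γ0 then p.f i γ0 ∪ {p.b} else p.f i γ) ↔ _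
    split_ifs with h
    · rw [h]
      constructor
      · rintro (h1 | h1)
        · exact h1
        · rw [Set.mem_singleton_iff.1 h1] at hξ
          exact absurd hξ (lt_irrefl _)
      · exact fun h1 => Or.inl h1
    · exact Iff.rfl
  · intro i ξ hξ
    have h1 : {γ | γ ∈ p.A ∧ ξ ∈ (if γ = γ0 then p.f i γ0 ∪ {p.b} else p.f i γ)} ⊆ {γ0} := by
      rintro γ ⟨_, hγ⟩
      by_contra hcon
      rw [if_neg (fun h => hcon (Set.mem_singleton_iff.2 h))] at hγ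
      exact absurd (p.lt_of_mem hγ) (not_lt.2 hξ)
    refine (Cardinal.mk_le_mk_of_subset h1).trans ?_
    rw [Cardinal.mk_singleton]
    exact hτ1 i
  · intro γ hγ ξ hξ
    show (if γ = γ0 ∧ ξ = p.b then α else p.g γ ξ) = _
    rw [if_neg]
    rintro ⟨_, rfl⟩
    exact lt_irrefl _ hξ
  · intro i
    show p.b ∈ (if γ0 = γ0 then p.f i γ0 ∪ {p.b} else p.f i γ0)
    rw [if_pos rfl]
    exact Or.inr rfl
  · intro i γ hγ
    show p.b ∉ (if γ = γ0 then p.f i γ0 ∪ {p.b} else p.f i γ)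
    rw [if_neg hγ]
    exact hnb i γ
  · show (if γ0 = γ0 ∧ p.b = p.b then α else p.g γ0 p.b) = α
    rw [if_pos ⟨rfl, rfl⟩]

end

end Pool.Agent.W931.KH
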