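import Mathlib
import Pool.Agent.W931.KH.Defs

set_option autoImplicit false

/-!
# Limits of linked sequences of conditions
-/

namespace Pool.Agent.W931.KH

open Cardinal Pool.Agent.Helper669.Forcing Pool.Agent.Helper669.K
open Pool.Agent.Helper669.KDelta (rec_choice small_iUnion small_biUnion small_union small_mono
  small_finite)

section

variable {L K I : Type} [LinearOrder L] [LinearOrder K] {Q : Par L K I}

/-- The limit of a linked system of decreasing sequences. -/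
theorem limit {δ : K} {fr : Set I} {gf : Prop} {S J : Type} [LinearOrder J] [Nonempty S]
    [Nonempty J] (hJ : #J < Q.lam) (p : S → J → Cd Q)
    (hmono : ∀ s j j', j ≤ j' → p s j' ≤ p s j)
    (hlk : ∀ j s s', Lk δ fr gf (p s j) (p s' j))
    (hcase : ∀ i, i ∉ fr ∨ #S ≤ Q.τ i ∨ ∀ C : Set J, #C ≤ Q.τ i → ∃ j0, ∀ c ∈ C, c ≤ j0) :
    ∃ q : S → Cd Q, (∀ s j, q s ≤ p s j) ∧ ∀ s s', Lk δ fr gf (q s) (q s') := by
  classical
  obtain ⟨s0⟩ := ‹Nonempty S›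
  -- notation
  obtain ⟨B, hB⟩ : ∃ B : J → L, B = fun j => (p s0 j).b := ⟨_, rfl⟩
  obtain ⟨TT, hTT⟩ : ∃ TT : J → I → Set (Set L), TT = fun j => (p s0 j).T := ⟨_, rfl⟩
  obtain ⟨AA, hAA⟩ : ∃ AA : J → Set K, AA = fun j => (p s0 j).A := ⟨_, rfl⟩
  have pb : ∀ s j, (p s j).b = B j := fun s j => by rw [hB]; exact (hlk j s s0).b
  have pT : ∀ s j, (p s j).T = TT j := fun s j => by rw [hTT]; exact (hlk j s s0).T
  have pA : ∀ s j, (p s j).A = AA j := fun s j => by rw [hAA]; exact (hlk j s s0).A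
  have Bmono : ∀ j j', j ≤ j' → B j ≤ B j' := fun j j' h => by
    rw [← pb s0 j, ← pb s0 j']; exact (hmono s0 j j' h).b
  have Tmono : ∀ i j j', j ≤ j' → TT j i ⊆ TT j' i := fun i j j' h => by
    rw [← pT s0 j, ← pT s0 j']; exact (hmono s0 j j' h).T i
  have Amono : ∀ j j', j ≤ j' → AA j ⊆ AA j' := fun j j' h => by
    rw [← pA s0 j, ← pA s0 j']; exact (hmono s0 j j' h).A
  -- the bound
  have hJ0 : #(Set.range B) < Q.lam := Cardinal.mk_range_le.trans_lt hJ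
  obtain ⟨b, hb⟩ := Q.bddL _ hJ0
  have hb' : ∀ j, B j < b := fun j => hb _ ⟨j, rfl⟩
  -- the labels
  obtain ⟨F, hF⟩ : ∃ F : S → I → K → Set L, F = fun s i γ => {ξ | ∃ j, ξ ∈ (p s j).f i γ} :=
    ⟨_, rfl⟩
  have memF : ∀ s i γ ξ, ξ ∈ F s i γ ↔ ∃ j, ξ ∈ (p s j).f i γ := by
    intro s i γ ξ
    rw [hF]
    rfl
  have Fcut : ∀ s i γ j, γ ∈ AA j → ∀ ξ < B j, ξ ∈ F s i γ ↔ ξ ∈ (p s j).f i γ := by
    intro s i γ j hγ ξ hξ
    rw [memF]
    constructor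
    · rintro ⟨j', hj'⟩
      rcases le_total j j' with h | h
      · exact ((hmono s j j' h).f i γ (by rw [pA]; exact hγ) ξ (by rw [pb]; exact hξ)).1 hj'
      · have h1 : γ ∈ (p s j').A := (p s j').mem_A hj'
        exact ((hmono s j' j h).f i γ h1 ξ ((p s j').lt_of_mem hj')).2 hj'
    · exact fun h => ⟨j, h⟩
  -- elements of the `T`s have the same traces
  have trT : ∀ i j0 j, ∀ t ∈ TT j i, ∀ x ⊆ Set.Iio (B j0), #x ≤ Q.τ i →
      ∃ t' ∈ TT j0 i, t ∩ x = t' ∩ x := by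
    intro i j0 j t ht x hx hc
    rcases le_total j j0 with h | h
    · exact ⟨t, Tmono i j j0 h ht, rfl⟩
    · have h1 := (hmono s0 j0 j h).tr i t (by rw [pT]; exact ht) x (by rw [pb]; exact hx) hc
      rw [pT] at h1
      exact h1
  have trF : ∀ s i j0 γ, (∃ j, γ ∈ AA j) → ∀ x ⊆ Set.Iio (B j0), #x ≤ Q.τ i →
      ∃ t' ∈ TT j0 i, F s i γ ∩ x = t' ∩ x := by
    intro s i j0 γ hγ x hx hc
    obtain ⟨j, hj⟩ := hγ
    have h1 : γ ∈ AA (max j j0) := Amono _ _ (le_max_left _ _) hj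
    have h2 : (p s (max j j0)).f i γ ∈ TT (max j j0) i := by
      rw [← pT s]; exact (p s (max j j0)).hf i γ
    obtain ⟨t', ht', h3⟩ := trT i j0 _ _ h2 x hx hc
    refine ⟨t', ht', ?_⟩
    rw [← h3]
    ext ξ
    constructor
    · rintro ⟨h4, h5⟩
      refine ⟨(Fcut s i γ _ h1 ξ ?_).1 h4, h5⟩
      exact lt_of_lt_of_le (hx h5) (Bmono _ _ (le_max_right _ _))
    · rintro ⟨h4, h5⟩
      exact ⟨(memF _ _ _ _).2 ⟨_, h4⟩, h5⟩
  have FltB : ∀ s i γ ξ, ξ ∈ F s i γ → ∃ j, ξ < B j := by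
    intro s i γ ξ h
    obtain ⟨j, hj⟩ := (memF _ _ _ _).1 h
    exact ⟨j, by rw [← pb s]; exact (p s j).lt_of_mem hj⟩
  have F0 : ∀ s i γ, (¬ ∃ j, γ ∈ AA j) → F s i γ = ∅ := by
    intro s i γ h
    rw [Set.eq_empty_iff_forall_notMem]
    intro ξ hξ
    obtain ⟨j, hj⟩ := (memF _ _ _ _).1 hξ
    exact h ⟨j, by rw [← pA s]; exact (p s j).mem_A hj⟩
  -- the new families
  obtain ⟨T', hT'⟩ : ∃ T' : I → Set (Set L), T' = fun i => {t | (∃ j, t ∈ TT j i) ∨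
      ∃ s γ, (∃ j, γ ∈ AA j) ∧ t = F s i γ} := ⟨_, rfl⟩
  have memT' : ∀ i t, t ∈ T' i ↔ ((∃ j, t ∈ TT j i) ∨ ∃ s γ, (∃ j, γ ∈ AA j) ∧ t = F s i γ) := by
    intro i t
    rw [hT']
    rfl
  have T'lt : ∀ i, ∀ t ∈ T' i, ∀ ξ ∈ t, ∃ j, ξ < B j := by
    intro i t ht ξ hξ
    rcases (memT' i t).1 ht with ⟨j, hj⟩ | ⟨s, γ, _, rfl⟩
    · refine ⟨j, ?_⟩
      rw [← pT s0] at hj
      rw [← pb s0]
      exact (p s0 j).hT i t hj hξ
    · exact FltB s i γ ξ hξ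
  have trT' : ∀ i j0, ∀ t ∈ T' i, ∀ x ⊆ Set.Iio (B j0), #x ≤ Q.τ i →
      ∃ t' ∈ TT j0 i, t ∩ x = t' ∩ x := by
    intro i j0 t ht x hx hc
    rcases (memT' i t).1 ht with ⟨j, hj⟩ | ⟨s, γ, hγ, rfl⟩
    · exact trT i j0 j t hj x hx hc
    · exact trF s i j0 γ hγ x hx hc
  have trTT : ∀ i j, ∀ x : Set L, #x ≤ Q.τ i → #((fun t => t ∩ x) '' TT j i) ≤ Q.τ i := by
    intro i j x hx
    rw [← pT s0]
    exact (p s0 j).htr i x hx
  have htr' : ∀ i, ∀ x : Set L, #x ≤ Q.τ i → #((fun t => t ∩ x) '' T' i) ≤ Q.τ i := by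
    intro i x hx
    -- the relevant part of `x`
    obtain ⟨x', hx'⟩ : ∃ x' : Set L, x' = {ξ | ξ ∈ x ∧ ∃ j, ξ < B j} := ⟨_, rfl⟩
    have hx's : x' ⊆ x := by rw [hx']; exact fun ξ h => h.1
    have hx'c : #x' ≤ Q.τ i := (Cardinal.mk_le_mk_of_subset hx's).trans hx
    have hj : ∀ ξ : x', ∃ j, ξ.1 < B j := by
      rintro ⟨ξ, h⟩
      rw [hx'] at h
      exact h.2
    choose jj hjj using hj
    have hcut : ∀ t ∈ T' i, t ∩ x = t ∩ x' := by
      intro t ht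
      ext ξ
      constructor
      · rintro ⟨h1, h2⟩
        refine ⟨h1, ?_⟩
        rw [hx']
        exact ⟨h2, T'lt i t ht ξ h1⟩
      · rintro ⟨h1, h2⟩
        exact ⟨h1, hx's h2⟩
    by_cases hA : ∃ j0, ∀ ξ : x', jj ξ ≤ j0
    · obtain ⟨j0, hj0⟩ := hA
      refine (Cardinal.mk_le_mk_of_subset ?_).trans (trTT i j0 x' hx'c)
      rintro _ ⟨t, ht, rfl⟩
      obtain ⟨t', ht', h1⟩ := trT' i j0 t ht x' (fun ξ hξ =>
        lt_of_lt_of_le (hjj ⟨ξ, hξ⟩) (Bmono _ _ (hj0 _))) hx'c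
      refine ⟨t', ht', ?_⟩
      show t' ∩ x' = t ∩ x
      rw [hcut t ht, h1]
    · push Not at hA
      -- the exceptional labels
      have hlim : ∀ j, ∃ ξ : x', j < jj ξ := hA
      obtain ⟨E, hE⟩ : ∃ E : S → Set K, E = fun s => ⋃ ξ0 : x', ⋃ ξ : x',
          {γ | γ ∈ AA (jj ξ0) ∧ B (jj ξ0) ≤ ξ.1 ∧ ξ.1 ∈ F s i γ} := ⟨_, rfl⟩
      have hEc : ∀ s, #(E s) ≤ Q.τ i := by
        intro s
        rw [hE]
        refine small_iUnion (Q.hτ0 i) hx'c _ fun ξ0 => small_iUnion (Q.hτ0 i) hx'c _ fun ξ => ?_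
        by_cases h1 : B (jj ξ0) ≤ ξ.1
        · have h2 : jj ξ0 ≤ jj ξ := by
            by_contra h3
            rw [not_le] at h3
            exact absurd (hjj ξ) (not_lt.2 ((Bmono _ _ h3.le).trans h1))
          refine (Cardinal.mk_le_mk_of_subset ?_).trans
            ((hmono s _ _ h2).few i ξ.1 (by rw [pb]; exact h1))
          rintro γ ⟨h3, _, h4⟩
          refine ⟨by rw [pA]; exact h3, ?_⟩
          exact (Fcut s i γ (jj ξ) (Amono _ _ h2 h3) ξ.1 (hjj ξ)).1 h4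
        · have h2 : {γ | γ ∈ AA (jj ξ0) ∧ B (jj ξ0) ≤ ξ.1 ∧ ξ.1 ∈ F s i γ} = (∅ : Set K) := by
            ext γ
            simp only [Set.mem_ofPred_eq, Set.mem_empty_iff_false, iff_false]
            exact fun h => h1 h.2.1
          rw [h2, Cardinal.mk_eq_zero]
          exact zero_le
      -- the traces of the `T`s
      have hT1 : #(⋃ ξ : x', (fun t => t ∩ x) '' TT (jj ξ) i : Set (Set L)) ≤ Q.τ i :=
        small_iUnion (Q.hτ0 i) hx'c _ fun ξ => trTT i (jj ξ) x hx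
      have hex : ∃ S' : Set S, #S' ≤ Q.τ i ∧ ∀ s γ, ∃ s' ∈ S', F s i γ = F s' i γ := by
        rcases hcase i with h | h | h
        · refine ⟨{s0}, ?_, ?_⟩
          · rw [Cardinal.mk_singleton]
            exact Cardinal.one_le_aleph0.trans (Q.hτ0 i)
          · intro s γ
            refine ⟨s0, rfl, ?_⟩
            ext ξ
            rw [memF, memF]
            constructor
            · rintro ⟨j, hj⟩
              exact ⟨j, by rw [← (hlk j s s0).f i γ (Or.inr h)]; exact hj⟩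
            · rintro ⟨j, hj⟩
              exact ⟨j, by rw [(hlk j s s0).f i γ (Or.inr h)]; exact hj⟩
        · exact ⟨Set.univ, by rw [Cardinal.mk_univ]; exact h, fun s γ => ⟨s, trivial, rfl⟩⟩
        · exfalso
          obtain ⟨j0, hj0⟩ := h (Set.range jj) (Cardinal.mk_range_le.trans hx'c)
          obtain ⟨ξ, hξ⟩ := hlim j0
          exact absurd (hj0 _ ⟨ξ, rfl⟩) (not_le.2 hξ)
      obtain ⟨S', hS', hS'2⟩ := hex
      have hT2 : #(⋃ s ∈ S', (fun γ => F s i γ ∩ x) '' E s : Set (Set L)) ≤ Q.τ i :=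
        small_biUnion (Q.hτ0 i) S' hS' _ fun s _ => Cardinal.mk_image_le.trans (hEc s)
      refine (Cardinal.mk_le_mk_of_subset ?_).trans (small_union (Q.hτ0 i) hT1 hT2)
      rintro _ ⟨t, ht, rfl⟩
      rcases (memT' i t).1 ht with ⟨j, hj⟩ | ⟨s, γ, hγ, rfl⟩
      · left
        obtain ⟨ξ, hξ⟩ := hlim j
        exact Set.mem_iUnion.2 ⟨ξ, t, Tmono i _ _ hξ.le hj, rfl⟩
      · obtain ⟨s', hs', hss⟩ := hS'2 s γ
        obtain ⟨j, hj⟩ := hγ
        obtain ⟨ξ0, hξ0⟩ := hlim j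
        have hγ0 : γ ∈ AA (jj ξ0) := Amono _ _ hξ0.le hj
        by_cases hγE : γ ∈ E s'
        · right
          simp only [Set.mem_iUnion]
          refine ⟨s', hs', γ, hγE, ?_⟩
          show F s' i γ ∩ x = F s i γ ∩ x
          rw [hss]
        · left
          refine Set.mem_iUnion.2 ⟨ξ0, (p s' (jj ξ0)).f i γ, ?_, ?_⟩
          · rw [← pT s']
            exact (p s' (jj ξ0)).hf i γ
          · show (p s' (jj ξ0)).f i γ ∩ x = F s i γ ∩ x
            rw [hss]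
            ext ξ
            constructor
            · rintro ⟨h1, h2⟩
              exact ⟨(memF _ _ _ _).2 ⟨_, h1⟩, h2⟩
            · rintro ⟨h1, h2⟩
              refine ⟨(Fcut s' i γ _ hγ0 ξ ?_).1 h1, h2⟩
              by_contra h3
              rw [not_lt] at h3
              apply hγE
              rw [hE]
              have h4 : ξ ∈ x' := by
                rw [hx']
                exact ⟨h2, FltB s' i γ ξ h1⟩
              simp only [Set.mem_iUnion]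
              exact ⟨ξ0, ⟨ξ, h4⟩, hγ0, h3, h1⟩
  -- the labels `g`
  obtain ⟨G, hG⟩ : ∃ G : S → K → L → K, G = fun s γ ξ =>
      if h : ∃ j, γ ∈ AA j ∧ ξ < B j then (p s h.choose).g γ ξ else γ := ⟨_, rfl⟩
  have Gcut : ∀ s γ j, γ ∈ AA j → ∀ ξ < B j, G s γ ξ = (p s j).g γ ξ := by
    intro s γ j hγ ξ hξ
    have h : ∃ j, γ ∈ AA j ∧ ξ < B j := ⟨j, hγ, hξ⟩
    rw [hG]
    simp only [dif_pos h]
    have h1 := h.choose_spec
    rcases le_total j h.choose with h2 | h2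
    · exact (hmono s _ _ h2).g γ (by rw [pA]; exact hγ) ξ (by rw [pb]; exact hξ)
    · exact ((hmono s _ _ h2).g γ (by rw [pA]; exact h1.1) ξ (by rw [pb]; exact h1.2)).symm
  have G0 : ∀ s γ ξ, (¬ ∃ j, γ ∈ AA j ∧ ξ < B j) → G s γ ξ = γ := by
    intro s γ ξ h
    rw [hG]
    simp only [dif_neg h]
  refine ⟨fun s => ⟨b, T', ⋃ j, AA j, F s, G s, ?_, htr', ?_, ?_, ?_, ?_, ?_, ?_⟩, ?_, ?_⟩
  · intro i t ht ξ hξ
    obtain ⟨j, hj⟩ := T'lt i t ht ξ hξ
    exact hj.trans (hb' j)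
  · intro i
    obtain ⟨j⟩ := ‹Nonempty J›
    refine (memT' _ _).2 (Or.inl ⟨j, ?_⟩)
    rw [← pT s]
    exact (p s j).hT0 i
  · refine (Cardinal.mk_iUnion_le_sum_mk).trans_lt ?_
    refine Cardinal.sum_lt_of_isRegular Q.hlam hJ ?_
    intro j
    rw [← pA s]
    exact (p s j).hA
  · intro i γ
    by_cases h : ∃ j, γ ∈ AA j
    · exact (memT' _ _).2 (Or.inr ⟨s, γ, h, rfl⟩)
    · rw [F0 s i γ h]
      obtain ⟨j⟩ := ‹Nonempty J›
      refine (memT' _ _).2 (Or.inl ⟨j, ?_⟩)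
      rw [← pT s]
      exact (p s j).hT0 i
  · intro i γ hγ
    exact F0 s i γ fun ⟨j, hj⟩ => hγ (Set.mem_iUnion.2 ⟨j, hj⟩)
  · intro γ ξ
    by_cases h : ∃ j, γ ∈ AA j ∧ ξ < B j
    · obtain ⟨j, h1, h2⟩ := h
      rw [Gcut s γ j h1 ξ h2]
      exact (p s j).hg γ ξ
    · rw [G0 s γ ξ h]
  · intro γ ξ h
    refine G0 s γ ξ ?_
    rintro ⟨j, h1, h2⟩
    rcases h with h | h
    · exact h (Set.mem_iUnion.2 ⟨j, h1⟩)
    · exact absurd (h2.trans (hb' j)) (not_lt.2 h)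
  · intro s j
    refine ⟨?_, ?_, ?_, ?_, ?_, ?_, ?_⟩
    · rw [pb]; exact (hb' j).le
    · intro i t ht
      rw [pT] at ht
      exact (memT' _ _).2 (Or.inl ⟨j, ht⟩)
    · intro i t ht x hx hc
      rw [pb] at hx
      rw [pT]
      exact trT' i j t ht x hx hc
    · rw [pA]
      exact Set.subset_iUnion AA j
    · intro i γ hγ ξ hξ
      rw [pA] at hγ
      rw [pb] at hξ
      exact Fcut s i γ j hγ ξ hξ
    · intro i ξ hξ
      rw [pb] at hξ
      by_cases h1 : ∃ j', ξ < B j'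
      · obtain ⟨j', hj'⟩ := h1
        have h2 : j ≤ j' := by
          by_contra h3
          rw [not_le] at h3
          exact absurd hj' (not_lt.2 ((Bmono _ _ h3.le).trans hξ))
        refine (Cardinal.mk_le_mk_of_subset ?_).trans
          ((hmono s j j' h2).few i ξ (by rw [pb]; exact hξ))
        rintro γ ⟨h3, h4⟩
        refine ⟨h3, ?_⟩
        rw [pA] at h3
        exact (Fcut s i γ j' (Amono _ _ h2 h3) ξ hj').1 h4
      · have h2 : {γ | γ ∈ (p s j).A ∧ ξ ∈ F s i γ} = (∅ : Set K) := by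
          ext γ
          simp only [Set.mem_ofPred_eq, Set.mem_empty_iff_false, iff_false]
          exact fun h => h1 (FltB s i γ ξ h.2)
        show #{γ | γ ∈ (p s j).A ∧ ξ ∈ F s i γ} ≤ Q.τ i
        rw [h2, Cardinal.mk_eq_zero]
        exact zero_le
    · intro γ hγ ξ hξ
      rw [pA] at hγ
      rw [pb] at hξ
      exact Gcut s γ j hγ ξ hξ
  · intro s s'
    refine ⟨rfl, rfl, rfl, ?_, ?_⟩
    · intro i γ hh
      show F s i γ = F s' i γ
      ext ξ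
      rw [memF, memF]
      constructor
      · rintro ⟨j, hj⟩
        exact ⟨j, by rw [← (hlk j s s').f i γ hh]; exact hj⟩
      · rintro ⟨j, hj⟩
        exact ⟨j, by rw [(hlk j s s').f i γ hh]; exact hj⟩
    · intro γ hh
      show G s γ = G s' γ
      funext ξ
      by_cases h : ∃ j, γ ∈ AA j ∧ ξ < B j
      · obtain ⟨j, h1, h2⟩ := h
        rw [Gcut s γ j h1 ξ h2, Gcut s' γ j h1 ξ h2, (hlk j s s').g γ hh]
      · rw [G0 s γ ξ h, G0 s' γ ξ h]

end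

end Pool.Agent.W931.KH
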