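import Mathlib
import Pool.Agent.W931.KH.Limit

set_option autoImplicit false

/-!
# Closure, chain condition
-/

namespace Pool.Agent.W931.KH

open Cardinal Pool.Agent.Helper669.Forcing Pool.Agent.Helper669.K
open Pool.Agent.Helper669.KDelta (rec_choice small_iUnion small_biUnion small_union small_mono
  small_finite)

/-- Decreasing sequences of length less than `χ` have lower bounds. -/
def SeqClosed (χ : Cardinal.{0}) (P : Type) [Preorder P] : Prop :=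
  ∀ (J : Type) [LinearOrder J], Nonempty J → #J < χ → ∀ p : J → P,
    (∀ j j', j ≤ j' → p j' ≤ p j) → ∃ q, ∀ j, q ≤ p j

theorem SeqClosed.exists_forall_mem {χ : Cardinal.{0}} {P : Type} [Preorder P]
    (h : SeqClosed χ P) {N : Type} (hN : #N < χ) (D : N → Set P) (hdown : ∀ i, Down (D i))
    (hdense : ∀ i q, ∃ q' ≤ q, q' ∈ D i) (q : P) : ∃ q' ≤ q, ∀ i, q' ∈ D i := by
  classical
  rcases isEmpty_or_nonempty N with hE | ⟨⟨n0⟩⟩
  · exact ⟨q, le_rfl, fun i => (hE.false i).elim⟩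
  obtain ⟨r, wo, -⟩ := Cardinal.exists_ord_eq N
  let _ : LinearOrder N := linearOrderOfSTO r
  have hq0 : Nonempty {p : P // p ≤ q} := ⟨⟨q, le_rfl⟩⟩
  have hwf : WellFounded (fun a b : N => a < b) := wo.toIsWellFounded.wf
  obtain ⟨f, hf⟩ := rec_choice (ι := N) (β := {p : P // p ≤ q}) (r := (· < ·)) hwf
    (fun n f b => (∀ m, m < n → b.1 ≤ (f m).1) ∧ b.1 ∈ D n)
    (by
      intro i f g b hfg h1
      refine ⟨fun m hm => ?_, h1.2⟩
      rw [← hfg m hm]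
      exact h1.1 m hm)
    (by
      intro n f hf
      rcases isEmpty_or_nonempty (Set.Iio n) with hE | hne
      · obtain ⟨q', hq', hD⟩ := hdense n q
        exact ⟨⟨q', hq'⟩, fun m hm => (hE.false ⟨m, hm⟩).elim, hD⟩
      · obtain ⟨q1, hq1⟩ := h (Set.Iio n) hne ((Cardinal.mk_set_le _).trans_lt hN)
          (fun m => (f m.1).1) (by
            intro j j' hjj
            rcases eq_or_lt_of_le hjj with rfl | hlt
            · exact le_rfl
            · exact (hf j'.1 j'.2).1 j.1 hlt)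
        obtain ⟨q2, hq2, hD⟩ := hdense n q1
        obtain ⟨m0⟩ := hne
        exact ⟨⟨q2, hq2.trans ((hq1 m0).trans (f m0.1).2)⟩,
          fun m hm => hq2.trans (hq1 ⟨m, hm⟩), hD⟩)
  obtain ⟨q1, hq1⟩ := h N ⟨n0⟩ hN (fun m => (f m).1) (by
    intro j j' hjj
    rcases eq_or_lt_of_le hjj with rfl | hlt
    · exact le_rfl
    · exact (hf j').1 j hlt)
  exact ⟨q1, (hq1 n0).trans (f n0).2, fun i => hdown i _ (hf i).2 _ (hq1 i)⟩

section

variable {L K I : Type} [LinearOrder L] [LinearOrder K] {Q : Par L K I}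

theorem seqClosed [Nonempty K] : SeqClosed Q.lam (Cd Q) := by
  intro J _ hne hJ p hp
  obtain ⟨δ⟩ := ‹Nonempty K›
  obtain ⟨q, hq, _⟩ := limit (δ := δ) (fr := ∅) (gf := False) (S := Unit) hJ
    (fun _ j => p j) (fun _ => hp) (fun j _ _ => Lk.refl _) (fun i => Or.inl (Set.notMem_empty i))
  exact ⟨q (), hq ()⟩

theorem Par.pow_lt (Q : Par L K I) {a c : Cardinal.{0}} (ha : a < Q.kap) (hc : c < Q.kap) :
    a ^ c < Q.kap := by
  have h0 : ℵ₀ ≤ Q.kap := Q.hkap.aleph0_le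
  calc a ^ c ≤ (2 ^ a) ^ c := Cardinal.power_le_power_right (Cardinal.cantor a).le
    _ = 2 ^ (a * c) := (Cardinal.power_mul).symm
    _ < Q.kap := Q.hstrong _ (Cardinal.mul_lt_of_lt h0 ha hc)

/-- The number of conditions with labels below `δ`. -/
theorem count (δ : K) : #{p : Cd Q // p.A ⊆ Set.Iio δ} < Q.kap := by
  have h0 : ℵ₀ ≤ Q.kap := Q.hkap.aleph0_le
  have hL : #L < Q.kap := by rw [Q.hL]; exact Q.hlk
  have hinj : Function.Injective (fun p : {p : Cd Q // p.A ⊆ Set.Iio δ} =>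
      ((p.1.b, p.1.T, {γ : Set.Iio δ | γ.1 ∈ p.1.A}, (fun i (γ : Set.Iio δ) => p.1.f i γ.1),
        (fun (γ : Set.Iio δ) ξ => (⟨p.1.g γ.1 ξ, (p.1.hg γ.1 ξ).trans_lt γ.2⟩ : Set.Iio δ))) :
        L × (I → Set (Set L)) × Set (Set.Iio δ) × (I → Set.Iio δ → Set L) ×
          (Set.Iio δ → L → Set.Iio δ))) := by
    rintro ⟨p, hp⟩ ⟨q, hq⟩ h
    simp only [Prod.mk.injEq] at h
    obtain ⟨h1, h2, h3, h4, h5⟩ := h
    have hA : p.A = q.A := by
      ext γ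
      constructor
      · intro hγ
        have h6 : (⟨γ, hp hγ⟩ : Set.Iio δ) ∈ {γ : Set.Iio δ | γ.1 ∈ p.A} := hγ
        rw [h3] at h6
        exact h6
      · intro hγ
        have h6 : (⟨γ, hq hγ⟩ : Set.Iio δ) ∈ {γ : Set.Iio δ | γ.1 ∈ q.A} := hγ
        rw [← h3] at h6
        exact h6
    apply Subtype.ext
    apply Cd.ext
    · exact h1
    · exact h2
    · exact hA
    · funext i γ
      by_cases hγ : γ < δ
      · exact congrFun (congrFun h4 i) ⟨γ, hγ⟩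
      · rw [p.hf0 i γ (fun h => hγ (hp h)), q.hf0 i γ (fun h => hγ (hq h))]
    · funext γ ξ
      by_cases hγ : γ < δ
      · exact congrArg Subtype.val (congrFun (congrFun h5 ⟨γ, hγ⟩) ξ)
      · rw [p.hg0 γ ξ (Or.inl fun h => hγ (hp h)), q.hg0 γ ξ (Or.inl fun h => hγ (hq h))]
  refine (Cardinal.mk_le_of_injective hinj).trans_lt ?_
  have hδ := Q.hKseg δ
  have hδL : #(Set.Iio δ) * #L < Q.kap := Cardinal.mul_lt_of_lt h0 hδ hL
  have e1 : #(I → Set (Set L)) < Q.kap := by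
    rw [← Cardinal.power_def, Cardinal.mk_set, Cardinal.mk_set]
    exact Q.pow_lt (Q.hstrong _ (Q.hstrong _ hL)) Q.hI
  have e2 : #(Set (Set.Iio δ)) < Q.kap := by
    rw [Cardinal.mk_set]
    exact Q.hstrong _ hδ
  have e3 : #(I → Set.Iio δ → Set L) < Q.kap := by
    rw [← Cardinal.power_def, ← Cardinal.power_def, Cardinal.mk_set]
    exact Q.pow_lt (Q.pow_lt (Q.hstrong _ hL) hδ) Q.hI
  have e4 : #(Set.Iio δ → L → Set.Iio δ) < Q.kap := by
    rw [← Cardinal.power_def, ← Cardinal.power_def]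
    exact Q.pow_lt (Q.pow_lt hδ hL) hδ
  rw [← Cardinal.mul_def, ← Cardinal.mul_def, ← Cardinal.mul_def, ← Cardinal.mul_def]
  exact Cardinal.mul_lt_of_lt h0 hL (Cardinal.mul_lt_of_lt h0 e1 (Cardinal.mul_lt_of_lt h0 e2
    (Cardinal.mul_lt_of_lt h0 e3 e4)))

theorem nonemptyK (Q : Par L K I) : Nonempty K := by
  rw [← Cardinal.mk_ne_zero_iff, Q.hK]
  exact Q.hkap.pos.ne'

theorem mk_le (Q : Par L K I) : #(Cd Q) ≤ Q.kap := by
  have hk0 : ℵ₀ ≤ Q.kap := Q.hkap.aleph0_le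
  have h1 : ∀ p : Cd Q, ∃ δ : K, p.A ⊆ Set.Iio δ := by
    intro p
    obtain ⟨b, hb⟩ := Q.bddK p.A (p.hA.trans Q.hlk)
    exact ⟨b, fun γ hγ => hb γ hγ⟩
  choose d hd using h1
  have hinj : Function.Injective (fun p : Cd Q =>
      (⟨d p, ⟨p, hd p⟩⟩ : Σ δ : K, {p : Cd Q // p.A ⊆ Set.Iio δ})) := by
    intro p q h
    simp only [Sigma.mk.injEq] at h
    obtain ⟨h1, h2⟩ := h
    have h3 : ∀ (δ δ' : K) (e : δ = δ') (a : {p : Cd Q // p.A ⊆ Set.Iio δ})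
        (c : {p : Cd Q // p.A ⊆ Set.Iio δ'}), HEq a c → a.1 = c.1 := by
      rintro δ _ rfl a c h
      rw [eq_of_heq h]
    exact h3 _ _ h1 _ _ h2
  refine (Cardinal.mk_le_of_injective hinj).trans ?_
  rw [Cardinal.mk_sigma]
  calc Cardinal.sum (fun δ : K => #{p : Cd Q // p.A ⊆ Set.Iio δ})
      ≤ Cardinal.sum (fun _ : K => Q.kap) := Cardinal.sum_le_sum _ _ fun δ => (count δ).le
    _ = Q.kap * Q.kap := by rw [Cardinal.sum_const', Q.hK]
    _ = Q.kap := Cardinal.mul_eq_self hk0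

variable [WellFoundedLT L] [WellFoundedLT K]

/-- Points of cofinality `lam` closed under a function. -/
theorem closing (Q : Par L K I) (h : K → K) (δ0 : K) : ∃ δ, δ0 < δ ∧ ∀ A ⊆ Set.Iio δ,
    #A < Q.lam → ∃ δ' < δ, A ⊆ Set.Iio δ' ∧ h δ' < δ := by
  classical
  have hk0 : ℵ₀ ≤ Q.kap := Q.hkap.aleph0_le
  have : Nonempty K := ⟨δ0⟩
  obtain ⟨d, hd⟩ := rec_choice (ι := L) (β := K) (r := (· < ·)) wellFounded_lt
    (fun ξ f b => δ0 < b ∧ ∀ η, η < ξ → f η < b ∧ h (f η) < b)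
    (by
      intro i f g b hfg h1
      refine ⟨h1.1, fun η hη => ?_⟩
      rw [← hfg η hη]
      exact h1.2 η hη)
    (by
      intro ξ f _
      have hs : #(Set.Iio ξ) < Q.kap := by
        refine (Cardinal.mk_set_le _).trans_lt ?_
        rw [Q.hL]
        exact Q.hlk
      obtain ⟨b, hb⟩ := Q.bddK ({δ0} ∪ (f '' Set.Iio ξ ∪ (fun η => h (f η)) '' Set.Iio ξ)) (by
        refine (Cardinal.mk_union_le _ _).trans_lt (Cardinal.add_lt_of_lt hk0 ?_ ?_)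
        · rw [Cardinal.mk_singleton]
          exact lt_of_lt_of_le Cardinal.one_lt_aleph0 hk0
        · exact (Cardinal.mk_union_le _ _).trans_lt (Cardinal.add_lt_of_lt hk0
            (Cardinal.mk_image_le.trans_lt hs) (Cardinal.mk_image_le.trans_lt hs)))
      exact ⟨b, hb _ (Or.inl rfl), fun η hη => ⟨hb _ (Or.inr (Or.inl ⟨η, hη, rfl⟩)),
        hb _ (Or.inr (Or.inr ⟨η, hη, rfl⟩))⟩⟩)
  have hne : {δ | ∀ ξ, d ξ < δ}.Nonempty := by
    obtain ⟨b, hb⟩ := Q.bddK (Set.range d) (by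
      refine Cardinal.mk_range_le.trans_lt ?_
      rw [Q.hL]
      exact Q.hlk)
    exact ⟨b, fun ξ => hb _ ⟨ξ, rfl⟩⟩
  obtain ⟨δ, hδ, hmin⟩ := (wellFounded_lt (α := K)).has_min _ hne
  have hLne : Nonempty L := by
    rw [← Cardinal.mk_ne_zero_iff, Q.hL]
    exact Q.hlam.pos.ne'
  obtain ⟨ξ0⟩ := hLne
  refine ⟨δ, (hd ξ0).1.trans (hδ ξ0), ?_⟩
  intro A hA hAc
  have h1 : ∀ α : A, ∃ ξ, α.1 ≤ d ξ := by
    intro α
    by_contra hcon
    push Not at hcon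
    exact hmin α.1 hcon (hA α.2)
  choose x hx using h1
  obtain ⟨ξ1, hξ1⟩ := Q.bddL (Set.range x) (Cardinal.mk_range_le.trans_lt hAc)
  obtain ⟨ξ2, hξ2⟩ := Q.bddL {ξ1} (by
    rw [Cardinal.mk_singleton]
    exact lt_of_lt_of_le Cardinal.one_lt_aleph0 Q.hlam.aleph0_le)
  have h2 := hξ2 ξ1 rfl
  refine ⟨d ξ1, hδ ξ1, ?_, ?_⟩
  · intro α hα
    exact lt_of_le_of_lt (hx ⟨α, hα⟩) ((hd ξ1).2 _ (hξ1 _ ⟨⟨α, hα⟩, rfl⟩)).1
  · exact ((hd ξ2).2 ξ1 h2).2.trans (hδ ξ2)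

/-- Closing off under responses. -/
theorem close {X : Type} (hX : #X < Q.kap) (R : Cd Q → X → Cd Q) (δ0 : K) :
    ∃ δ, δ0 < δ ∧ ∀ p : Cd Q, p.A ⊆ Set.Iio δ → ∀ x, (R p x).A ⊆ Set.Iio δ := by
  have hk0 : ℵ₀ ≤ Q.kap := Q.hkap.aleph0_le
  have h1 : ∀ δ' : K, ∃ b : K, ∀ p : Cd Q, p.A ⊆ Set.Iio δ' → ∀ x, ∀ γ ∈ (R p x).A, γ < b := by
    intro δ'
    obtain ⟨b, hb⟩ := Q.bddK
      (⋃ y : {p : Cd Q // p.A ⊆ Set.Iio δ'} × X, (R y.1.1 y.2).A) (by
      refine (Cardinal.mk_iUnion_le_sum_mk).trans_lt ?_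
      refine Cardinal.sum_lt_of_isRegular Q.hkap ?_ ?_
      · rw [← Cardinal.mul_def]
        exact Cardinal.mul_lt_of_lt hk0 (count δ') hX
      · intro y
        exact (R y.1.1 y.2).hA.trans Q.hlk)
    exact ⟨b, fun p hp x γ hγ => hb γ (Set.mem_iUnion.2 ⟨⟨⟨p, hp⟩, x⟩, hγ⟩)⟩
  choose h hh using h1
  obtain ⟨δ, hδ0, hδ⟩ := closing Q h δ0
  refine ⟨δ, hδ0, ?_⟩
  intro p hp x γ hγ
  obtain ⟨δ', hδ', hpA, hlt⟩ := hδ p.A hp p.hA
  exact (hh δ' p hpA x γ hγ).trans hlt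

/-- The chain condition. -/
theorem cc (Q : Par L K I) (ι : Type) (f : ι → Cd Q) (hι : Q.kap ≤ #ι) :
    ∃ i j, i ≠ j ∧ ∃ r, r ≤ f i ∧ r ≤ f j := by
  classical
  by_contra hcon
  push Not at hcon
  have hinj : ∀ i j, (∃ r, r ≤ f i ∧ r ≤ f j) → i = j := by
    intro i j ⟨r, h1, h2⟩
    by_contra hne
    exact hcon i j hne r h1 h2
  obtain ⟨δ0⟩ := nonemptyK Q
  obtain ⟨δ, _, hδ⟩ := close (Q := Q) (X := Unit)
    (by rw [Cardinal.mk_unit]; exact lt_of_lt_of_le Cardinal.one_lt_aleph0 Q.hkap.aleph0_le)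
    (fun p _ => if h : ∃ i, ∃ r, r ≤ p ∧ r ≤ f i then f h.choose else p) δ0
  have hmem : ∀ i, (f i).A ⊆ Set.Iio δ := by
    intro i
    have h : ∃ j, ∃ r, r ≤ res (f i) δ ∧ r ≤ f j := ⟨i, f i, le_res _ _, le_rfl⟩
    have h1 := hδ (res (f i) δ) (res_A_sub _ _) ()
    simp only [dif_pos h] at h1
    obtain ⟨r, hr1, hr2⟩ := h.choose_spec
    have h2 : res r δ ≤ res (f i) δ := by
      have h3 := res_mono hr1 δ
      rwa [res_eq_self (res_A_sub (f i) δ)] at h3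
    have h4 : res r δ ≤ f h.choose := by
      have h3 := res_mono hr2 δ
      rwa [res_eq_self h1] at h3
    obtain ⟨q, hq1, hq2⟩ := amal h2 (res_A_sub _ _)
    have h5 : i = h.choose := hinj _ _ ⟨q, hq1, hq2.trans h4⟩
    intro γ hγ
    apply h1
    rw [← h5]
    exact hγ
  have h6 : #ι ≤ #{p : Cd Q // p.A ⊆ Set.Iio δ} := by
    refine Cardinal.mk_le_of_injective (f := fun i => (⟨f i, hmem i⟩ : {p : Cd Q // p.A ⊆ Set.Iio δ})) ?_
    intro i j hij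
    have h7 : f i = f j := congrArg Subtype.val hij
    exact hinj i j ⟨f i, le_rfl, h7.le⟩
  exact absurd (hι.trans h6) (not_le.2 (count δ))

end

end Pool.Agent.W931.KH
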