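import Mathlib
import Pool.Agent.Helper669.VFinal

set_option autoImplicit false

/-!
# The higher Kurepa hypotheses in the language of forcing
-/

namespace Pool.Agent.W931.KH

open Cardinal Pool.Agent.Helper669.Forcing Pool.Agent.Helper669.K

section

variable {P : Type} [Preorder P]

/-- `F` names a family of subsets of `M`, indexed by `K`; for every subset `X` of `M` of
cardinality `ρ` there are at most `σ` sets of the form `F γ ∩ X`: for some family `Y` of sets
indexed by `σ`, each `F γ` has the same intersection with `X` as some `Y w`. -/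
def FewTraces {K M : Type} (F : K → M → Set P) (ρ σ : Cardinal.{0}) : Set P :=
  fall fun X : M → Set P => fimp (SameSize (K := ρ.ord.ToType) X)
    (fex fun Y : σ.ord.ToType → M → Set P => fall fun γ => fex fun w => fall fun ξ =>
      fimp (meets (X ξ)) (fand (fimp (meets (F γ ξ)) (meets (Y w ξ)))
        (fimp (meets (Y w ξ)) (meets (F γ ξ)))))

/-- The sets `F γ` are pairwise distinct. -/
def Distinct {K M : Type} (F : K → M → Set P) : Set P :=
  fall fun γ => fall fun γ' => fall fun _ : γ ≠ γ' =>
    fnot (fand (Sub (F γ) (F γ')) (Sub (F γ') (F γ)))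

/-- There is a family of `|K|` many subsets of `M` which has at most `ρ` traces on each subset
of `M` of cardinality `ρ`. When `|K| = |M|⁺` in the extension this is `KH(|M|, ρ)`. -/
def KurepaHyp (P : Type) [Preorder P] (K M : Type) (ρ : Cardinal.{0}) : Set P :=
  fex fun F : K → M → Set P => fand (Distinct F) (FewTraces F ρ ρ)

/-- There is a family of `|K|` many subsets of `M` which for every cardinal `ρ < χ` has at most
`max ρ ℵ₀` traces on each subset of `M` of cardinality `ρ`. When `|K| = |M|⁺` in the extension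
this is `KH(|M|, <χ)`. -/
def KurepaHypLt (P : Type) [Preorder P] (K M : Type) (χ : Cardinal.{0}) : Set P :=
  fex fun F : K → M → Set P => fand (Distinct F)
    (fall fun ρ : Cardinal.{0} => fall fun _ : ρ < χ => FewTraces F ρ (max ρ ℵ₀))

theorem down_FewTraces {K M : Type} (F : K → M → Set P) (ρ σ : Cardinal.{0}) :
    Down (FewTraces F ρ σ) := down_fall fun _ => down_fimp _ _

theorem down_Distinct {K M : Type} (F : K → M → Set P) : Down (Distinct F) :=
  down_fall fun _ => down_fall fun _ => down_fall fun _ => down_fnot _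

theorem down_Sub {M : Type} (X Y : M → Set P) : Down (Sub X Y) := down_fall fun _ => down_fimp _ _

theorem chk_mem {X : Type} {s : Set X} {y : X} (h : y ∈ s) (q : P) : q ∈ meets (chk (Q := P) s y) :=
  meets_of_mem h

theorem chk_sameSize {M : Type} {ρ : Cardinal.{0}} {x : Set M} (hx : #x = ρ) (q : P) :
    q ∈ SameSize (K := ρ.ord.ToType) (chk (Q := P) x) := by
  have h1 : #(ρ.ord.ToType) = #x := by rw [mk_ord_toType, hx]
  obtain ⟨e⟩ := Cardinal.eq.1 h1
  refine mem_fex.2 fun r _ => ⟨r, le_rfl, fun w y => {_q | y = (e w).1}, ⟨?_, ?_⟩, ?_, ?_⟩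
  · intro w
    exact mem_fex.2 fun r' _ => ⟨r', le_rfl, (e w).1, meets_of_mem rfl⟩
  · intro w y y'
    refine mem_fimp.2 fun r' _ h => ⟨r', le_rfl, ?_⟩
    obtain ⟨_, _, t, ht, _⟩ := h.1 r' le_rfl
    obtain ⟨_, _, t', ht', _⟩ := h.2 r' le_rfl
    exact ht.trans ht'.symm
  · intro w w' y
    refine mem_fimp.2 fun r' _ h => ⟨r', le_rfl, ?_⟩
    obtain ⟨_, _, t, ht, _⟩ := h.1 r' le_rfl
    obtain ⟨_, _, t', ht', _⟩ := h.2 r' le_rfl
    have h2 : (e w).1 = (e w').1 := ht.symm.trans ht'
    exact e.injective (Subtype.ext h2)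
  · intro y
    refine ⟨?_, ?_⟩
    · refine mem_fimp.2 fun r' _ h => ⟨r', le_rfl, ?_⟩
      have h2 : y ∈ x := chk_of_meets h
      refine mem_fex.2 fun r'' _ => ⟨r'', le_rfl, e.symm ⟨y, h2⟩, meets_of_mem ?_⟩
      show y = (e (e.symm ⟨y, h2⟩)).1
      rw [Equiv.apply_symm_apply]
    · intro w
      refine mem_fimp.2 fun r' _ h => ⟨r', le_rfl, meets_of_mem ?_⟩
      obtain ⟨_, _, t, ht, _⟩ := h r' le_rfl
      have h2 : y = (e w).1 := ht
      show y ∈ x
      rw [h2]
      exact (e w).2

end

end Pool.Agent.W931.KH
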