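import Mathlib
import Pool.Agent.W931.KH.CC
import Pool.Agent.W931.KH.Stmt

set_option autoImplicit false

/-!
# Families with few traces in the extension
-/

namespace Pool.Agent.W931.KH

open Cardinal Pool.Agent.Helper669.Forcing Pool.Agent.Helper669.K
open Pool.Agent.Helper669.KDelta (rec_choice small_iUnion small_biUnion small_union small_mono
  small_finite)

section

variable {L K I : Type} [LinearOrder L] [LinearOrder K] {Q : Par L K I}

/-- Deciding the traces of a family with few traces. -/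
theorem decide_traces {P M K' : Type} [Preorder P] {χ ρ : Cardinal.{0}} (hcl : SeqClosed χ P)
    (hρχ : ρ < χ) (hχ : ℵ₀ ≤ χ) {F : K' → M → Set P} {p : P} (hp : p ∈ FewTraces F ρ ρ)
    (x : Set M) (hx : #x = ρ) :
    ∃ q ≤ p, ∃ S : ρ.ord.ToType → Set M, ∀ γ, ∀ q' ≤ q, ∃ q'' ≤ q', ∃ w, ∀ ξ ∈ x,
      (ξ ∈ S w → q'' ∈ meets (F γ ξ)) ∧ (ξ ∉ S w → q'' ∈ fnot (meets (F γ ξ))) := by
  classical
  obtain ⟨q1, hq1, h1⟩ := mem_fimp.1 (hp (chk x)) p le_rfl (chk_sameSize hx p)
  obtain ⟨q2, hq2, Y, hY⟩ := mem_fex.1 h1 q1 le_rfl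
  obtain ⟨q3, hq3, hD⟩ := hcl.exists_forall_mem (N := ρ.ord.ToType × x)
    (by
      rw [← Cardinal.mul_def, mk_ord_toType, hx]
      exact Cardinal.mul_lt_of_lt hχ hρχ hρχ)
    (fun z => meets (Y z.1 z.2.1) ∪ fnot (meets (Y z.1 z.2.1)))
    (by
      intro z r hr r' hr'
      rcases hr with hr | hr
      · exact Or.inl (down_meets _ _ hr _ hr')
      · exact Or.inr (down_fnot _ _ hr _ hr'))
    (by
      intro z r
      by_cases h : ∃ r' ≤ r, r' ∈ meets (Y z.1 z.2.1)
      · obtain ⟨r', hr', h'⟩ := h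
        exact ⟨r', hr', Or.inl h'⟩
      · push Not at h
        exact ⟨r, le_rfl, Or.inr h⟩) q2
  refine ⟨q3, hq3.trans (hq2.trans hq1), fun w => {ξ | q3 ∈ meets (Y w ξ)}, ?_⟩
  intro γ q' hq'
  obtain ⟨q4, hq4, w, hw⟩ := mem_fex.1 (hY γ) q' (hq'.trans hq3)
  refine ⟨q4, hq4, w, ?_⟩
  intro ξ hξ
  have hψ : ∀ s ≤ q4, ∃ r ≤ s, r ∈ fand (fimp (meets (F γ ξ)) (meets (Y w ξ)))
      (fimp (meets (Y w ξ)) (meets (F γ ξ))) := fun s hs => mem_fimp.1 (hw ξ) s hs (chk_mem hξ s)
  constructor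
  · intro h2 s hs
    obtain ⟨r0, hr0, _, h4⟩ := hψ s hs
    have h5 : r0 ∈ meets (Y w ξ) := down_meets _ _ h2 _ (hr0.trans (hs.trans (hq4.trans hq')))
    obtain ⟨r1, hr1, h6⟩ := mem_fimp.1 h4 r0 le_rfl h5
    obtain ⟨r2, hr2, t, ht, hrt⟩ := h6 r1 le_rfl
    exact ⟨r2, hr2.trans (hr1.trans hr0), t, ht, hrt⟩
  · intro h2 s hs hs2
    obtain ⟨r0, hr0, h3, _⟩ := hψ s hs
    obtain ⟨r1, hr1, h6⟩ := mem_fimp.1 h3 r0 le_rfl (down_meets _ _ hs2 _ hr0)
    rcases hD (w, ⟨ξ, hξ⟩) with h7 | h7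
    · exact h2 h7
    · exact h7 r1 (hr1.trans (hr0.trans (hs.trans (hq4.trans hq')))) h6

/-- Below each extension of `p` there are linked conditions which disagree about the name. -/
def Splits (N : L → Set (Cd Q)) (δ : K) (fr : Set I) (gf : Prop) (p : Cd Q) : Prop :=
  ∀ p' ≤ p, ∃ p1 ≤ p', ∃ p2 ≤ p', Lk δ fr gf p1 p2 ∧ ∃ ξ, p1 ∈ meets (N ξ) ∧
    p2 ∈ fnot (meets (N ξ))

theorem Splits.mono {N : L → Set (Cd Q)} {δ : K} {fr : Set I} {gf : Prop} {p q : Cd Q}
    (h : Splits N δ fr gf p) (hq : q ≤ p) : Splits N δ fr gf q :=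
  fun p' hp' => h p' (hp'.trans hq)

variable [WellFoundedLT L] [WellFoundedLT K]

/-- Some member of a family of distinct sets is split below some condition. -/
theorem exists_splits {F : K → L → Set (Cd Q)} {p0 : Cd Q} (hF : p0 ∈ Distinct F) (δ : K) :
    ∃ γ, ∃ p ≤ p0, Splits (F γ) δ Set.univ True p := by
  classical
  have hk0 : ℵ₀ ≤ Q.kap := Q.hkap.aleph0_le
  have hL : #L < Q.kap := by rw [Q.hL]; exact Q.hlk
  by_contra hcon
  push Not at hcon
  have h1 : ∀ γ, ∃ p ≤ p0, ∀ p1 ≤ p, ∀ p2 ≤ p, Lk δ Set.univ True p1 p2 → ∀ ξ,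
      p1 ∈ meets (F γ ξ) → p2 ∉ fnot (meets (F γ ξ)) := by
    intro γ
    have h2 := hcon γ p0 le_rfl
    unfold Splits at h2
    push Not at h2
    exact h2
  choose p hp hns using h1
  obtain ⟨D, hD⟩ : ∃ D : K → Set ({p : Cd Q // p.A ⊆ Set.Iio δ} × L), D = fun γ =>
      {z | ∃ p1 ≤ p γ, res p1 δ = z.1.1 ∧ p1 ∈ meets (F γ z.2)} := ⟨_, rfl⟩
  have hcard : #(Set ({p : Cd Q // p.A ⊆ Set.Iio δ} × L)) < Q.kap.ord.cof := by
    rw [Q.hkap.cof_ord, Cardinal.mk_set, ← Cardinal.mul_def]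
    exact Q.hstrong _ (Cardinal.mul_lt_of_lt hk0 (count δ) hL)
  obtain ⟨a, ha⟩ := Cardinal.infinite_pigeonhole_card D Q.kap Q.hK.ge hk0 hcard
  obtain ⟨γ, γ', hne, r, hr1, hr2⟩ := cc Q (D ⁻¹' {a}) (fun γ => p γ.1) ha
  have key : ∀ γ γ' : K, D γ = D γ' → r ≤ p γ → r ≤ p γ' → r ∈ Sub (F γ) (F γ') := by
    intro γ γ' hDD hrγ hrγ' ξ
    refine mem_fimp.2 fun s hs hsF => ?_
    by_contra hno
    push Not at hno
    have h2 : ((⟨res s δ, res_A_sub s δ⟩, ξ) : {p : Cd Q // p.A ⊆ Set.Iio δ} × L) ∈ D γ := by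
      rw [hD]
      exact ⟨s, hs.trans hrγ, rfl, hsF⟩
    rw [hDD, hD] at h2
    obtain ⟨p1, hp1, hp1r, hp1F⟩ := h2
    obtain ⟨p1', hp1', s', hs', hlk⟩ := equalize (p := p1) (q := s) (δ := δ) hp1r
    exact hns γ' p1' (hp1'.trans hp1) s' (hs'.trans (hs.trans hrγ')) hlk ξ
      (down_meets _ _ hp1F _ hp1') (fun t ht => hno t (ht.trans hs'))
  have hDD : D γ.1 = D γ'.1 := by
    have h2 : D γ.1 = a := γ.2
    have h3 : D γ'.1 = a := γ'.2
    rw [h2, h3]
  have hne' : γ.1 ≠ γ'.1 := fun h => hne (Subtype.ext h)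
  exact hF γ.1 γ'.1 hne' r (hr1.trans (hp γ.1)) ⟨key _ _ hDD hr1 hr2, key _ _ hDD.symm hr2 hr1⟩

omit [WellFoundedLT L] [WellFoundedLT K] in
/-- The tree of conditions. -/
theorem tree {U H : Type} [LinearOrder H] [WellFoundedLT H] (e : U → H → Bool) (hU : Nonempty U)
    (hH : #H < Q.lam) {N : L → Set (Cd Q)} {δ : K} {fr : Set I} {gf : Prop} {p : Cd Q}
    (hs : Splits N δ fr gf p)
    (hone : ∀ z u u' v v', (∀ z' < z, e u z' = e u' z') → e u z = true → e u' z = false →
      (∀ z' < z, e v z' = e v' z') → e v z = true → e v' z = false → ∀ z' < z, e u z' = e v z')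
    (hcls : ∀ i ∈ fr, ∀ z, #(Set.range fun u => fun z' : Set.Iio z => e u z'.1) ≤ Q.τ i) :
    ∃ (P : H → U → Cd Q) (x : H → L), (∀ z u, P z u ≤ p) ∧
      (∀ z z' u, z ≤ z' → P z' u ≤ P z u) ∧ (∀ z u u', Lk δ fr gf (P z u) (P z u')) ∧
      ∀ z u u', (∀ z' < z, e u z' = e u' z') → e u z = true → e u' z = false →
        P z u ∈ meets (N (x z)) ∧ P z u' ∈ fnot (meets (N (x z))) := by
  classical
  have hLne : Nonempty L := ⟨p.b⟩
  obtain ⟨l0⟩ := hLne
  have hβ : Nonempty ({P : U → Cd Q // ∀ u, P u ≤ p} × L) :=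
    ⟨(⟨fun _ => p, fun _ => le_rfl⟩, l0)⟩
  obtain ⟨f, hf⟩ := rec_choice (ι := H) (β := {P : U → Cd Q // ∀ u, P u ≤ p} × L) (r := (· < ·))
    wellFounded_lt
    (fun z f b => (∀ z' < z, ∀ u, b.1.1 u ≤ (f z').1.1 u) ∧
      (∀ u u', (∀ z' ≤ z, e u z' = e u' z') → b.1.1 u = b.1.1 u') ∧
      (∀ u u', Lk δ fr gf (b.1.1 u) (b.1.1 u')) ∧
      ∀ u u', (∀ z' < z, e u z' = e u' z') → e u z = true → e u' z = false →
        b.1.1 u ∈ meets (N b.2) ∧ b.1.1 u' ∈ fnot (meets (N b.2)))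
    (by
      intro i f g b hfg h1
      refine ⟨fun z' hz' u => ?_, h1.2⟩
      rw [← hfg z' hz']
      exact h1.1 z' hz' u)
    (by
      intro z f hf
      obtain ⟨cls, hcl⟩ : ∃ cls : U → Set.Iio z → Bool, cls = fun u => fun z' => e u z'.1 :=
        ⟨_, rfl⟩
      have hcl' : ∀ u u', cls u = cls u' ↔ ∀ z' < z, e u z' = e u' z' := by
        intro u u'
        rw [hcl]
        constructor
        · intro h z' hz'
          exact congrFun h ⟨z', hz'⟩
        · intro h
          funext z'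
          exact h z'.1 z'.2
      have hrep : ∀ s : Set.range cls, ∃ u, cls u = s.1 := fun s => s.2
      choose rep hrep using hrep
      have hSne : Nonempty (Set.range cls) := by
        obtain ⟨u⟩ := hU
        exact ⟨⟨cls u, u, rfl⟩⟩
      -- the conditions before splitting
      obtain ⟨q, hq1, hq2, hq3⟩ : ∃ q : Set.range cls → Cd Q, (∀ s, q s ≤ p) ∧
          (∀ s, ∀ z' < z, q s ≤ (f z').1.1 (rep s)) ∧ ∀ s s', Lk δ fr gf (q s) (q s') := by
        rcases isEmpty_or_nonempty (Set.Iio z) with hE | hne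
        · exact ⟨fun _ => p, fun _ => le_rfl, fun s z' hz' => (hE.false ⟨z', hz'⟩).elim,
            fun _ _ => Lk.refl _⟩
        · obtain ⟨q, hq1, hq2⟩ := limit (δ := δ) (fr := fr) (gf := gf) (S := Set.range cls)
            (J := Set.Iio z) ((Cardinal.mk_set_le _).trans_lt hH)
            (fun s j => (f j.1).1.1 (rep s))
            (by
              intro s j j' hjj
              rcases eq_or_lt_of_le hjj with rfl | hlt
              · exact le_rfl
              · exact (hf j'.1 j'.2).1 j.1 hlt (rep s))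
            (fun j s s' => (hf j.1 j.2).2.2.1 _ _)
            (by
              intro i
              by_cases hi : i ∈ fr
              · right; left
                rw [hcl]
                exact hcls i hi z
              · exact Or.inl hi)
          obtain ⟨j0⟩ := hne
          exact ⟨q, fun s => (hq1 s j0).trans ((f j0.1).1.2 _), fun s z' hz' => hq1 s ⟨z', hz'⟩, hq2⟩
      have hq4 : ∀ u, ∀ z' < z, q ⟨cls u, u, rfl⟩ ≤ (f z').1.1 u := by
        intro u z' hz'
        have h1 := hq2 ⟨cls u, u, rfl⟩ z' hz'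
        have h2 : (f z').1.1 (rep ⟨cls u, u, rfl⟩) = (f z').1.1 u := by
          refine (hf z' hz').2.1 _ _ ?_
          intro z'' hz''
          exact (hcl' _ _).1 (hrep ⟨cls u, u, rfl⟩) z'' (hz''.trans_lt hz')
        rw [h2] at h1
        exact h1
      by_cases h : ∃ u u', cls u = cls u' ∧ e u z = true ∧ e u' z = false
      · obtain ⟨u, u', huu, hu, hu'⟩ := h
        obtain ⟨p1, hp1, p2, hp2, hlk, ξ, hN1, hN2⟩ := hs (q ⟨cls u, u, rfl⟩) (hq1 _)
        have htr : ∀ s, ∃ q' ≤ q s, Lk δ fr gf p1 q' := by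
          intro s
          obtain ⟨q', hq', h'⟩ := (hq3 ⟨cls u, u, rfl⟩ s).transfer hp1
          exact ⟨q', hq', h'⟩
        choose q' hq' hq'l using htr
        have hle : ∀ v, (if cls v = cls u then (if e v z = true then p1 else p2) else
            q' ⟨cls v, v, rfl⟩) ≤ q ⟨cls v, v, rfl⟩ := by
          intro v
          by_cases h1 : cls v = cls u
          · have h2 : q ⟨cls v, v, rfl⟩ = q ⟨cls u, u, rfl⟩ := by
              congr 1
              exact Subtype.ext h1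
            rw [if_pos h1, h2]
            by_cases h3 : e v z = true
            · rw [if_pos h3]; exact hp1
            · rw [if_neg h3]; exact hp2
          · rw [if_neg h1]
            exact hq' _
        refine ⟨(⟨fun v => if cls v = cls u then (if e v z = true then p1 else p2) else
            q' ⟨cls v, v, rfl⟩, fun v => (hle v).trans (hq1 _)⟩, ξ), ?_, ?_, ?_, ?_⟩
        · intro z' hz' v
          exact (hle v).trans (hq4 v z' hz')
        · intro v v' hvv
          have h1 : cls v = cls v' := (hcl' _ _).2 fun z' hz' => hvv z' hz'.le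
          have h2 : q' ⟨cls v, v, rfl⟩ = q' ⟨cls v', v', rfl⟩ := by
            congr 1
            exact Subtype.ext h1
          show (if cls v = cls u then (if e v z = true then p1 else p2) else
            q' ⟨cls v, v, rfl⟩) = (if cls v' = cls u then (if e v' z = true then p1 else p2) else
            q' ⟨cls v', v', rfl⟩)
          rw [h2, h1, hvv z le_rfl]
        · have h1 : ∀ v, Lk δ fr gf p1 (if cls v = cls u then (if e v z = true then p1 else p2) else
              q' ⟨cls v, v, rfl⟩) := by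
            intro v
            split_ifs
            · exact Lk.refl _
            · exact hlk
            · exact hq'l _
          intro v v'
          exact (h1 v).symm.trans (h1 v')
        · intro v v' hvv hv hv'
          have h1 : cls v = cls v' := (hcl' _ _).2 hvv
          have h2 : cls v = cls u := by
            refine (hcl' _ _).2 ?_
            intro z' hz'
            exact (hone z u u' v v' ((hcl' _ _).1 huu) hu hu' hvv hv hv' z' hz').symm
          have h3 : cls v' = cls u := by rw [← h1, h2]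
          show (if cls v = cls u then (if e v z = true then p1 else p2) else
            q' ⟨cls v, v, rfl⟩) ∈ meets (N ξ) ∧ (if cls v' = cls u then
            (if e v' z = true then p1 else p2) else q' ⟨cls v', v', rfl⟩) ∈ fnot (meets (N ξ))
          rw [if_pos h2, if_pos hv, if_pos h3, hv']
          exact ⟨hN1, hN2⟩
      · push Not at h
        refine ⟨(⟨fun v => q ⟨cls v, v, rfl⟩, fun v => hq1 _⟩, l0), ?_, ?_, ?_, ?_⟩
        · intro z' hz' v
          exact hq4 v z' hz'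
        · intro v v' hvv
          have h1 : cls v = cls v' := (hcl' _ _).2 fun z' hz' => hvv z' hz'.le
          show q ⟨cls v, v, rfl⟩ = q ⟨cls v', v', rfl⟩
          congr 1
          exact Subtype.ext h1
        · intro v v'
          exact hq3 _ _
        · intro v v' hvv hv hv'
          exact absurd hv' (h v v' ((hcl' _ _).2 hvv) hv))
  refine ⟨fun z u => (f z).1.1 u, fun z => (f z).2, fun z u => (f z).1.2 u, ?_, ?_, ?_⟩
  · intro z z' u hzz
    rcases eq_or_lt_of_le hzz with rfl | hlt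
    · exact le_rfl
    · exact (hf z').1 z hlt u
  · intro z u u'
    exact (hf z).2.2.1 u u'
  · intro z u u'
    exact (hf z).2.2.2 u u'

omit [WellFoundedLT L] [WellFoundedLT K] in
/-- The contradiction. -/
theorem kill {U H : Type} [LinearOrder H] [WellFoundedLT H] (e : U → H → Bool)
    (hinj : ∀ u u', u ≠ u' → ∃ z, e u z ≠ e u' z) {ρ : Cardinal.{0}} (hρ0 : ℵ₀ ≤ ρ)
    (hH : #H ≤ ρ) (hρ : ρ < Q.lam)
    (hU : ρ < #U) {N : L → Set (Cd Q)} {δ : K} {fr : Set I} {gf : Prop} {p p0 : Cd Q}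
    (hs : Splits N δ fr gf p)
    (hone : ∀ z u u' v v', (∀ z' < z, e u z' = e u' z') → e u z = true → e u' z = false →
      (∀ z' < z, e v z' = e v' z') → e v z = true → e v' z = false → ∀ z' < z, e u z' = e v z')
    (hcls : ∀ i ∈ fr, ∀ z, #(Set.range fun u => fun z' : Set.Iio z => e u z'.1) ≤ Q.τ i)
    (htop : ∀ i ∈ fr, #U ≤ Q.τ i ∨ ∀ C : Set H, #C ≤ Q.τ i → ∃ j0, ∀ c ∈ C, c ≤ j0)
    (hp : p ≤ p0) (hp0 : p0.A ⊆ Set.Iio δ)
    (hδ : ∀ r : Cd Q, r.A ⊆ Set.Iio δ → r ≤ p0 → ∀ x : Set L, #x = ρ → ∃ q ≤ r,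
      q.A ⊆ Set.Iio δ ∧ ∃ S : ρ.ord.ToType → Set L, ∀ q' ≤ q, ∃ q'' ≤ q', ∃ w, ∀ ξ ∈ x,
        (ξ ∈ S w → q'' ∈ meets (N ξ)) ∧ (ξ ∉ S w → q'' ∈ fnot (meets (N ξ)))) : False := by
  classical
  have hUne : Nonempty U := by
    rw [← Cardinal.mk_ne_zero_iff]
    exact (zero_le.trans_lt hU).ne'
  obtain ⟨P, x, hP1, hP2, hP3, hP4⟩ := tree e hUne (hH.trans_lt hρ) hs hone hcls
  have hHne : Nonempty H := by
    obtain ⟨u⟩ := hUne
    have h1 : ∃ u', u' ≠ u := by
      by_contra hcon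
      push Not at hcon
      have h2 : #U ≤ 1 := by
        rw [Cardinal.le_one_iff_subsingleton]
        exact ⟨fun a b => (hcon a).trans (hcon b).symm⟩
      exact absurd (hU.trans_le h2) (not_lt.2 (Cardinal.one_le_aleph0.trans hρ0))
    obtain ⟨u', hu'⟩ := h1
    obtain ⟨z, _⟩ := hinj u' u hu'
    exact ⟨z⟩
  obtain ⟨q, hq1, hq2⟩ := limit (δ := δ) (fr := fr) (gf := gf) (S := U) (J := H)
    (hH.trans_lt hρ) (fun u z => P z u) (fun u z z' h => hP2 z z' u h) (fun z u u' => hP3 z u u')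
    (by
      intro i
      by_cases hi : i ∈ fr
      · exact Or.inr (htop i hi)
      · exact Or.inl hi)
  -- a set of size `ρ` containing the points `x z`
  obtain ⟨y, hy⟩ : ∃ y : Set L, #y = ρ := by
    rw [← Cardinal.le_mk_iff_exists_set, Q.hL]
    exact hρ.le
  have hx1 : #(Set.range x ∪ y : Set L) = ρ := by
    apply le_antisymm
    · refine (Cardinal.mk_union_le _ _).trans ?_
      rw [hy]
      exact Cardinal.add_le_of_le hρ0 (Cardinal.mk_range_le.trans hH) le_rfl
    · rw [← hy]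
      exact Cardinal.mk_le_mk_of_subset Set.subset_union_right
  obtain ⟨u0⟩ := hUne
  obtain ⟨z0⟩ := hHne
  have hqp : ∀ u, q u ≤ p0 := fun u => (hq1 u z0).trans ((hP1 z0 u).trans hp)
  have hr0 : res (q u0) δ ≤ p0 := by
    have h1 := res_mono (hqp u0) δ
    rwa [res_eq_self hp0] at h1
  obtain ⟨r, hr, hrA, S, hS⟩ := hδ _ (res_A_sub (q u0) δ) hr0 _ hx1
  have h1 : ∀ u, ∃ a ≤ q u, ∃ w, ∀ ξ ∈ Set.range x ∪ y,
      (ξ ∈ S w → a ∈ meets (N ξ)) ∧ (ξ ∉ S w → a ∈ fnot (meets (N ξ))) := by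
    intro u
    have h2 : r ≤ res (q u) δ := by
      rw [(hq2 u u0).res_eq]
      exact hr
    obtain ⟨a, ha1, ha2⟩ := amal h2 hrA
    obtain ⟨a', ha', w, hw⟩ := hS a ha2
    exact ⟨a', ha'.trans ha1, w, hw⟩
  choose a ha w hw using h1
  have hcase : ∀ u u', w u = w u' → ∀ z, (∀ z' < z, e u z' = e u' z') → e u z = true →
      e u' z = false → False := by
    intro u u' hww z hz h2 h3
    obtain ⟨h4, h5⟩ := hP4 z u u' hz h2 h3
    have hmem : x z ∈ Set.range x ∪ y := Or.inl ⟨z, rfl⟩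
    by_cases h6 : x z ∈ S (w u)
    · have h7 : x z ∈ S (w u') := by rw [← hww]; exact h6
      have h8 := (hw u' (x z) hmem).1 h7
      exact h5 (a u') ((ha u').trans (hq1 u' z)) h8
    · have h8 := (hw u (x z) hmem).2 h6
      exact h8 (a u) le_rfl (down_meets _ _ h4 _ ((ha u).trans (hq1 u z)))
  have hwinj : Function.Injective w := by
    intro u u' hww
    by_contra hne
    obtain ⟨z1, hz1⟩ := hinj u u' hne
    obtain ⟨z, hz, hmin⟩ := (wellFounded_lt (α := H)).has_min {z | e u z ≠ e u' z} ⟨z1, hz1⟩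
    have hlt : ∀ z' < z, e u z' = e u' z' := by
      intro z' hz'
      by_contra h
      exact hmin z' h hz'
    rcases hb : e u z with _ | _
    · rcases hb' : e u' z with _ | _
      · exact hz (hb.trans hb'.symm)
      · exact hcase u' u hww.symm z (fun z' hz' => (hlt z' hz').symm) hb' hb
    · rcases hb' : e u' z with _ | _
      · exact hcase u u' hww z hlt hb hb'
      · exact hz (hb.trans hb'.symm)
  have h9 := Cardinal.mk_le_of_injective hwinj
  rw [mk_ord_toType] at h9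
  exact absurd h9 (not_le.2 hU)

end

end Pool.Agent.W931.KH
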