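import Mathlib
import Pool.Agent.W931.KH.Kill

set_option autoImplicit false

/-!
# The generic families, the collapse, cardinal arithmetic in the extension
-/

namespace Pool.Agent.W931.KH

open Cardinal Pool.Agent.Helper669.Forcing Pool.Agent.Helper669.K Pool.Agent.Helper669.U
  Pool.Agent.Helper669.V
open Pool.Agent.Helper669.KDelta (rec_choice small_iUnion small_biUnion small_union small_mono
  small_finite)

section

variable {L K I : Type} [LinearOrder L] [LinearOrder K] {Q : Par L K I}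

/-- The generic family. -/
def gen (Q : Par L K I) (i : I) : K → L → Set (Cd Q) := fun γ ξ => {p | ξ ∈ p.f i γ}

theorem down_gen (i : I) (γ : K) (ξ : L) : Down (gen Q i γ ξ) := by
  intro p hp q hq
  have h1 : ξ ∈ p.f i γ := hp
  exact (hq.f i γ (p.mem_A h1) ξ (p.lt_of_mem h1)).2 h1

theorem exists_lt (Q : Par L K I) (b : L) : ∃ b', b < b' := by
  obtain ⟨b', hb'⟩ := Q.bddL {b} (by
    rw [Cardinal.mk_singleton]
    exact lt_of_lt_of_le Cardinal.one_lt_aleph0 Q.hlam.aleph0_le)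
  exact ⟨b', hb' b rfl⟩

theorem single_lt (Q : Par L K I) (γ : K) : #({γ} : Set K) < Q.lam := by
  rw [Cardinal.mk_singleton]
  exact lt_of_lt_of_le Cardinal.one_lt_aleph0 Q.hlam.aleph0_le

/-- decided membership -/
theorem gen_decided {i : I} {γ : K} {ξ : L} {p : Cd Q} (hγ : γ ∈ p.A) (hξ : ξ < p.b) :
    p ∈ meets (gen Q i γ ξ) ↔ ξ ∈ p.f i γ := by
  constructor
  · intro h
    obtain ⟨r, hr, h1⟩ := exists_of_meets (down_gen i γ ξ) h
    exact (hr.f i γ hγ ξ hξ).1 h1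
  · intro h
    exact meets_of_mem h

theorem gen_distinct (i : I) (p : Cd Q) : p ∈ Distinct (gen Q i) := by
  intro γ γ' hne q _ hsub
  obtain ⟨h1, _⟩ := hsub
  obtain ⟨q1, hq1, _, _, hA1, _, _⟩ := addA q {γ} (single_lt Q γ)
  obtain ⟨q2, hq2, _, _, hA2, _, _⟩ := addA q1 {γ'} (single_lt Q γ')
  have m1 : γ ∈ q2.A := hq2.A (by rw [hA1]; exact Or.inr rfl)
  have m2 : γ' ∈ q2.A := by rw [hA2]; exact Or.inr rfl
  obtain ⟨b', hb'⟩ := exists_lt Q q2.b
  obtain ⟨q3, hq3, hb3, hA3, h3, h4, _⟩ := extend q2 b' hb' γ m1 γ le_rfl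
  have h5 : q3 ∈ meets (gen Q i γ q2.b) := meets_of_mem (h3 i)
  obtain ⟨q4, hq4, h6⟩ := mem_fimp.1 (h1 q2.b) q3 (hq3.trans (hq2.trans hq1)) h5
  obtain ⟨q5, hq5, h7⟩ := exists_of_meets (down_gen i γ' q2.b) h6
  have h8 : q2.b ∈ q5.f i γ' := h7
  have h9 := ((hq5.trans hq4).f i γ' (by rw [hA3]; exact m2) q2.b (by rw [hb3]; exact hb')).1 h8
  exact h4 i γ' (Ne.symm hne) h9

/-- The height can be increased. -/
theorem exists_high (p : Cd Q) (b : L) : ∃ q ≤ p, b ≤ q.b := by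
  rcases le_or_gt b p.b with h | h
  · exact ⟨p, le_rfl, h⟩
  · obtain ⟨γ⟩ := nonemptyK Q
    obtain ⟨q1, hq1, hb1, _, hA1, _, _⟩ := addA p {γ} (single_lt Q γ)
    obtain ⟨q, hq, hb, _⟩ := extend q1 b (by rw [hb1]; exact h) γ (by rw [hA1]; exact Or.inr rfl) γ
      le_rfl
    exact ⟨q, hq.trans hq1, hb.ge⟩

theorem gen_few (i : I) (p : Cd Q) : p ∈ FewTraces (gen Q i) (Q.τ i) (Q.τ i) := by
  classical
  have : Nonempty K := nonemptyK Q
  intro X
  refine mem_fimp.2 fun q _ hq => ?_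
  obtain ⟨q1, hq1, R, hR1, hR2, hR3⟩ := mem_fex.1 hq q le_rfl
  -- decide `X`
  obtain ⟨q2, hq2, hD⟩ := (seqClosed (Q := Q)).exists_forall_mem (N := (Q.τ i).ord.ToType)
    (by rw [mk_ord_toType]; exact Q.hτ i)
    (fun w => {r : Cd Q | (∃ m, r ∈ meets (R w m)) ∨ ∀ r' ≤ r, ¬ r' ≤ q1})
    (by
      intro w r hr r' hr'
      rcases hr with ⟨m, hm⟩ | hr
      · exact Or.inl ⟨m, down_meets _ _ hm _ hr'⟩
      · exact Or.inr fun r'' h'' => hr r'' (h''.trans hr'))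
    (by
      intro w r
      by_cases h : ∃ r' ≤ r, r' ≤ q1
      · obtain ⟨r', hr', hr3⟩ := h
        obtain ⟨r'', hr'', m, hm⟩ := IsFun.total (down_IsFun R _ hR1 _ hr3) w
        exact ⟨r'', hr''.trans hr', Or.inl ⟨m, hm⟩⟩
      · exact ⟨r, le_rfl, Or.inr fun r' hr' h3 => h ⟨r', hr', h3⟩⟩) q1
  have hD' : ∀ w, ∃ m, q2 ∈ meets (R w m) := by
    intro w
    rcases hD w with h | h
    · exact h
    · exact absurd hq2 (h q2 le_rfl)
  choose m hm using hD'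
  have hxc : #(Set.range m) ≤ Q.τ i := by
    refine Cardinal.mk_range_le.trans ?_
    rw [mk_ord_toType]
  have hX : ∀ r ≤ q2, ∀ ξ, r ∈ meets (X ξ) → ξ ∈ Set.range m := by
    intro r hr ξ h1
    obtain ⟨r1, hr1, h2⟩ := mem_fimp.1 (hR3 ξ).1 r (hr.trans hq2) h1
    obtain ⟨r2, hr2, w, h3⟩ := mem_fex.1 h2 r1 le_rfl
    have h4 : r2 ≤ q2 := hr2.trans (hr1.trans hr)
    exact ⟨w, IsFun.unique (down_IsFun R _ hR1 _ (h4.trans hq2)) (down_meets _ _ (hm w) _ h4) h3⟩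
  obtain ⟨b, hb⟩ := Q.bddL (Set.range m) (hxc.trans_lt (Q.hτ i))
  obtain ⟨q3, hq3, hb3⟩ := exists_high q2 b
  have hxb : Set.range m ⊆ Set.Iio q3.b := fun ξ hξ => lt_of_lt_of_le (hb ξ hξ) hb3
  -- enumerate the traces
  obtain ⟨E, hE⟩ : ∃ E : (Q.τ i).ord.ToType → Set L, ∀ t ∈ q3.T i,
      ∃ w, E w = t ∩ Set.range m := by
    have h1 : #((fun t => t ∩ Set.range m) '' q3.T i) ≤ #((Q.τ i).ord.ToType) := by
      rw [mk_ord_toType]
      exact q3.htr i _ hxc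
    obtain ⟨j⟩ := h1
    refine ⟨fun w => if h : ∃ y, j y = w then h.choose.1 else ∅, fun t ht => ?_⟩
    refine ⟨j ⟨t ∩ Set.range m, t, ht, rfl⟩, ?_⟩
    have h2 : ∃ y, j y = j ⟨t ∩ Set.range m, t, ht, rfl⟩ := ⟨_, rfl⟩
    simp only [dif_pos h2]
    exact congrArg Subtype.val (j.injective h2.choose_spec)
  refine ⟨q3, hq3.trans (hq2.trans hq1), ?_⟩
  refine mem_fex.2 fun q4 hq4 => ⟨q4, le_rfl, fun w ξ => {_q | ξ ∈ E w}, fun γ => ?_⟩
  refine mem_fex.2 fun q5 hq5 => ?_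
  obtain ⟨q6, hq6, hb6, hT6, hA6, hf6, hg6⟩ := addA q5 {γ} (single_lt Q γ)
  have hγ : γ ∈ q6.A := by rw [hA6]; exact Or.inr rfl
  have h63 : q6 ≤ q3 := hq6.trans (hq5.trans hq4)
  obtain ⟨t', ht', htr⟩ := h63.tr i (q6.f i γ) (q6.hf i γ) (Set.range m) hxb hxc
  obtain ⟨w, hw⟩ := hE t' ht'
  refine ⟨q6, hq6, w, fun ξ => ?_⟩
  refine mem_fimp.2 fun q7 hq7 hmX => ⟨q7, le_rfl, ?_⟩
  have hξ : ξ ∈ Set.range m := hX q7 ((hq7.trans h63).trans hq3) ξ hmX
  have hξb : ξ < q6.b := lt_of_lt_of_le (hxb hξ) h63.b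
  have hiff : ξ ∈ E w ↔ ξ ∈ q6.f i γ := by
    rw [hw, ← htr]
    exact ⟨fun h => h.1, fun h => ⟨h, hξ⟩⟩
  constructor
  · refine mem_fimp.2 fun q8 hq8 h8 => ⟨q8, le_rfl, meets_of_mem ?_⟩
    show ξ ∈ E w
    rw [hiff]
    obtain ⟨r, hr, h9⟩ := exists_of_meets (down_gen i γ ξ) h8
    exact ((hr.trans (hq8.trans hq7)).f i γ hγ ξ hξb).1 h9
  · refine mem_fimp.2 fun q8 hq8 h8 => ⟨q8, le_rfl, ?_⟩
    obtain ⟨_, _, s, hs, _⟩ := h8 q8 le_rfl
    have h9 : ξ ∈ E w := hs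
    rw [hiff] at h9
    exact meets_of_le (s := q6) h9 (hq8.trans hq7)

theorem gen_KH (i : I) (p : Cd Q) : p ∈ KurepaHyp (Cd Q) K L (Q.τ i) :=
  mem_fex_of_mem (gen Q i) (down_fand (down_Distinct _) (down_FewTraces _ _ _))
    ⟨gen_distinct i p, gen_few i p⟩

/-- The collapse. -/
theorem collapse {V : Type} (hV : #V < Q.kap) (p : Cd Q) :
    p ∈ (fex fun R : L → V → Set (Cd Q) =>
      fand (fall fun x => fall fun y => fall fun y' =>
        fimp (fand (meets (R x y)) (meets (R x y'))) (fground (y = y'))) (IsOnto R)) := by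
  classical
  obtain ⟨x, hx⟩ : ∃ x : Set K, #x = #V := by
    rw [← Cardinal.le_mk_iff_exists_set, Q.hK]
    exact hV.le
  obtain ⟨γ, hγ⟩ := Q.bddK x (by rw [hx]; exact hV)
  obtain ⟨e⟩ := Cardinal.eq.1 hx.symm
  have hdown : ∀ ξ y, Down {p : Cd Q | γ ∈ p.A ∧ ξ < p.b ∧ p.g γ ξ = (e y).1} := by
    rintro ξ y p ⟨h1, h2, h3⟩ q hq
    exact ⟨hq.A h1, lt_of_lt_of_le h2 hq.b, (hq.g γ h1 ξ h2).trans h3⟩
  refine mem_fex_of_mem (fun ξ y => {p : Cd Q | γ ∈ p.A ∧ ξ < p.b ∧ p.g γ ξ = (e y).1}) ?_ ⟨?_, ?_⟩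
  · exact down_fand (down_fall fun _ => down_fall fun _ => down_fall fun _ => down_fimp _ _)
      (down_IsOnto _)
  · intro ξ y y'
    refine mem_fimp.2 fun q _ h => ?_
    obtain ⟨r, hr, h1⟩ := exists_of_meets (hdown ξ y) h.1
    obtain ⟨r', hr', h2⟩ := exists_of_meets (hdown ξ y') (down_meets _ _ h.2 _ hr)
    have h3 := hdown ξ y _ h1 _ hr'
    refine ⟨r', hr'.trans hr, ?_⟩
    have h4 : (e y).1 = (e y').1 := h3.2.2.symm.trans h2.2.2
    exact e.injective (Subtype.ext h4)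
  · intro y
    refine mem_fex.2 fun q _ => ?_
    obtain ⟨q1, hq1, hb1, _, hA1, _, _⟩ := addA q {γ} (single_lt Q γ)
    obtain ⟨b', hb'⟩ := exists_lt Q q1.b
    have hγ1 : γ ∈ q1.A := by rw [hA1]; exact Or.inr rfl
    obtain ⟨q2, hq2, hb2, hA2, _, _, hg2⟩ := extend q1 b' hb' γ hγ1 (e y).1
      (hγ _ (e y).2).le
    refine ⟨q2, hq2.trans hq1, q1.b, meets_of_mem ⟨?_, ?_, hg2⟩⟩
    · rw [hA2]; exact hγ1
    · rw [hb2]; exact hb'

end

theorem powOnto_of_seqClosed {Q : Type} [Preorder Q] {χ ν μ : Cardinal.{0}}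
    (hQ : SeqClosed χ Q) (hν : ν < χ) (hμ : 2 ^ ν ≤ μ) (q : Q) : q ∈ PowOnto Q ν μ := by
  classical
  have hcard : #(Set ν.ord.ToType) ≤ #(μ.ord.ToType) := by
    rw [Cardinal.mk_set, Cardinal.mk_ord_toType, Cardinal.mk_ord_toType]
    exact hμ
  obtain ⟨j⟩ := hcard
  have hsurj : Function.Surjective (Function.invFun j) := Function.invFun_surjective j.injective
  refine mem_fex.2 fun q' _ => ⟨q', le_rfl, fun i => chk (Function.invFun j i), fun X => ?_⟩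
  refine mem_fex.2 fun q'' _ => ?_
  obtain ⟨r, hr, hD⟩ := hQ.exists_forall_mem (N := ν.ord.ToType)
    (by rw [Cardinal.mk_ord_toType]; exact hν)
    (fun x => meets (X x) ∪ fnot (meets (X x)))
    (by
      intro x p hp p' hp'
      rcases hp with hp | hp
      · exact Or.inl (down_meets _ _ hp _ hp')
      · exact Or.inr (down_fnot _ _ hp _ hp'))
    (by
      intro x p
      by_cases h : ∃ p' ≤ p, p' ∈ meets (X x)
      · obtain ⟨p', hp', h'⟩ := h
        exact ⟨p', hp', Or.inl h'⟩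
      · refine ⟨p, le_rfl, Or.inr fun p' hp' h' => h ⟨p', hp', h'⟩⟩) q''
  obtain ⟨i, hi⟩ := hsurj {x | r ∈ meets (X x)}
  refine ⟨r, hr, i, ?_, ?_⟩
  · intro y
    refine mem_fimp.2 fun q1 hq1 h1 => ⟨q1, le_rfl, ?_⟩
    obtain ⟨_, _, s, hs, _⟩ := h1 q1 le_rfl
    have hy : y ∈ Function.invFun j i := hs
    rw [hi] at hy
    exact down_meets _ _ hy _ hq1
  · intro y
    refine mem_fimp.2 fun q1 hq1 h1 => ⟨q1, le_rfl, ?_⟩
    rcases hD y with h | h
    · apply meets_of_mem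
      show y ∈ Function.invFun j i
      rw [hi]
      exact h
    · exact absurd h1 (h q1 hq1)

/-- The parameters for cardinals `lam < kap`. -/
def mkPar {I : Type} (lam kap : Cardinal.{0}) (τ : I → Cardinal.{0}) (hlam : lam.IsRegular)
    (hkap : kap.IsRegular) (hstrong : ∀ ν < kap, 2 ^ ν < kap) (hlk : lam < kap)
    (hτ0 : ∀ i, ℵ₀ ≤ τ i) (hτ : ∀ i, τ i < lam) (hI : #I < kap) :
    Par lam.ord.ToType kap.ord.ToType I where
  lam := lam
  kap := kap
  τ := τ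
  hL := mk_ord_toType _
  hK := mk_ord_toType _
  hlam := hlam
  hkap := hkap
  hstrong := hstrong
  hlk := hlk
  hτ0 := hτ0
  hτ := hτ
  hI := hI
  hKseg := fun b => Cardinal.mk_Iio_toType_ord_lt b
  bddL := fun x hx => by
    by_contra hcon
    push Not at hcon
    have h1 : IsCofinal x := fun b => hcon b
    have h2 := Order.cof_le h1
    rw [Ordinal.cof_toType, hlam.cof_ord] at h2
    exact absurd hx (not_lt.2 h2)
  bddK := fun x hx => by
    by_contra hcon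
    push Not at hcon
    have h1 : IsCofinal x := fun b => hcon b
    have h2 := Order.cof_le h1
    rw [Ordinal.cof_toType, hkap.cof_ord] at h2
    exact absurd hx (not_lt.2 h2)

section

variable {I : Type} {lam kap : Cardinal.{0}} {τ : I → Cardinal.{0}} {hlam : lam.IsRegular}
  {hkap : kap.IsRegular} {hstrong : ∀ ν < kap, 2 ^ ν < kap} {hlk : lam < kap}
  {hτ0 : ∀ i, ℵ₀ ≤ τ i} {hτ : ∀ i, τ i < lam} {hI : #I < kap}

/-- The cardinals of the extension. -/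
theorem ext_cardinals
    (p : Cd (mkPar lam kap τ hlam hkap hstrong hlk hτ0 hτ hI)) :
    (∀ ν : Cardinal.{0}, ν.IsRegular → (ν ≤ lam ∨ kap ≤ ν) →
      p ∈ StaysRegular (Cd (mkPar lam kap τ hlam hkap hstrong hlk hτ0 hτ hI)) ν) ∧
    p ∈ CollapsedTo (Cd (mkPar lam kap τ hlam hkap hstrong hlk hτ0 hτ hI)) lam kap := by
  have : Nonempty kap.ord.ToType := nonemptyK (mkPar lam kap τ hlam hkap hstrong hlk hτ0 hτ hI)
  refine ⟨?_, ?_⟩
  · intro ν hν hc
    rcases hc with h | h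
    · exact staysRegular_proj hν
        (fun N D hN hd hdense q =>
          (seqClosed (Q := mkPar lam kap τ hlam hkap hstrong hlk hτ0 hτ hI)).exists_forall_mem
            (hN.trans_le h) D hd hdense q)
        id (fun a b h => h) (fun a q' h => ⟨q', h, le_rfl⟩) (fun q' => ⟨q', le_rfl⟩) p
    · exact staysRegular_of_cc' hν (fun ι f hι => cc _ ι f (h.trans hι)) p
  · intro ν hν
    exact collapse (Q := mkPar lam kap τ hlam hkap hstrong hlk hτ0 hτ hI) (V := ν.out)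
      (by rw [Cardinal.mk_out]; exact hν) p

/-- GCH in the extension. -/
theorem ext_GCH (hGCH : ∀ ν : Cardinal.{0}, ℵ₀ ≤ ν → 2 ^ ν = Order.succ ν)
    (q : Cd (mkPar lam kap τ hlam hkap hstrong hlk hτ0 hτ hI)) :
    q ∈ ForcesGCH (Cd (mkPar lam kap τ hlam hkap hstrong hlk hτ0 hτ hI)) := by
  have : Nonempty kap.ord.ToType := nonemptyK (mkPar lam kap τ hlam hkap hstrong hlk hτ0 hτ hI)
  have hcc : ∀ (ι : Type) (f : ι → Cd (mkPar lam kap τ hlam hkap hstrong hlk hτ0 hτ hI)),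
      kap ≤ #ι → ∃ i j, i ≠ j ∧ ∃ r, r ≤ f i ∧ r ≤ f j := fun ι f hι => cc _ ι f hι
  have hQ : #(Cd (mkPar lam kap τ hlam hkap hstrong hlk hτ0 hτ hI)) ≤ kap := mk_le _
  intro ν hν
  rcases lt_or_ge ν lam with h | h
  · refine mem_fex_of_mem (Order.succ ν) (down_fand (down_fex _) (gch_down_coll _ _)) ⟨?_, ?_⟩
    · exact powOnto_of_seqClosed
        (seqClosed (Q := mkPar lam kap τ hlam hkap hstrong hlk hτ0 hτ hI)) h (hGCH ν hν).le q
    · exact gch_ground _ _ (fun ρ hρ => Order.lt_succ_iff.1 hρ) q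
  · rcases lt_or_ge ν kap with h' | h'
    · refine mem_fex_of_mem kap (down_fand (down_fex _) (gch_down_coll _ _)) ⟨?_, ?_⟩
      · obtain ⟨F, hF⟩ := exists_nice_enum
          (Q := Cd (mkPar lam kap τ hlam hkap hstrong hlk hτ0 hτ hI)) (χ := kap) (ν := ν)
          (μ := kap) hcc (card_nice hkap hstrong hQ h') hkap.pos.ne'
        exact powOnto_of_enum hF q
      · exact gch_mono h (ext_cardinals q).2
    · refine mem_fex_of_mem (Order.succ ν) (down_fand (down_fex _) (gch_down_coll _ _)) ⟨?_, ?_⟩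
      · obtain ⟨F, hF⟩ := exists_nice_enum
          (Q := Cd (mkPar lam kap τ hlam hkap hstrong hlk hτ0 hτ hI)) (χ := kap) (ν := ν)
          (μ := Order.succ ν) hcc (by
            rw [← hGCH ν hν]
            refine card_nice' hν ?_ (h'.trans (Order.le_succ ν))
            rw [hGCH ν hν]
            exact hQ.trans (h'.trans (Order.le_succ ν))) (Order.succ_ne_bot ν)
        exact powOnto_of_enum hF q
      · exact gch_ground _ _ (fun ρ hρ => Order.lt_succ_iff.1 hρ) q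

end

end Pool.Agent.W931.KH
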