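import Mathlib
import Pool.Agent.W931.KH.Kill

set_option autoImplicit false

/-!
# Coding a family of sets with countable traces by a tree of branches
-/

namespace Pool.Agent.W931.KH

open Cardinal Pool.Agent.Helper669.Forcing Pool.Agent.Helper669.K

/-- A coding of the branches. -/
structure Coding (U H : Type) [LinearOrder H] (e : U → H → Bool) : Prop where
  inj : ∀ u u', u ≠ u' → ∃ z, e u z ≠ e u' z
  one : ∀ z u u' v v', (∀ z' < z, e u z' = e u' z') → e u z = true → e u' z = false →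
      (∀ z' < z, e v z' = e v' z') → e v z = true → e v' z = false → ∀ z' < z, e u z' = e v z'
  cls : ∀ z, #(Set.range fun u => fun z' : Set.Iio z => e u z'.1) ≤ ℵ₀

theorem countable_range_of_factor {U A B : Type} [Countable B] (f : U → A) (g : U → B)
    (h : ∀ s s', g s = g s' → f s = f s') : (Set.range f).Countable := by
  classical
  rcases isEmpty_or_nonempty U with hE | ⟨⟨u0⟩⟩
  · rw [Set.range_eq_empty]
    exact Set.countable_empty
  have hA : Nonempty A := ⟨f u0⟩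
  have h1 : Set.range f ⊆ Set.range fun b : B => if h : ∃ u, g u = b then f h.choose else f u0 := by
    rintro _ ⟨u, rfl⟩
    refine ⟨g u, ?_⟩
    have h2 : ∃ u', g u' = g u := ⟨u, rfl⟩
    simp only [dif_pos h2]
    exact h _ _ h2.choose_spec
  exact (Set.countable_range _).mono h1

/-- Coding. -/
theorem exists_coding {U H0 : Type} [LinearOrder H0] [WellFoundedLT H0] (u : U → Set H0)
    (hu : Function.Injective u)
    (hc : ∀ j : H0, (Set.range fun s => u s ∩ Set.Iio j).Countable) :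
    ∃ e : U → (H0 ×ₗ ℕ) → Bool, Coding U (H0 ×ₗ ℕ) e := by
  classical
  -- codes of the traces
  have h1 : ∀ j : H0, ∃ c : U → ℕ, ∀ s s', c s = c s' → u s ∩ Set.Iio j = u s' ∩ Set.Iio j := by
    intro j
    obtain ⟨f, hf⟩ := (Set.countable_iff_exists_injective).1 (hc j)
    refine ⟨fun s => f ⟨u s ∩ Set.Iio j, s, rfl⟩, fun s s' h => ?_⟩
    exact congrArg Subtype.val (hf h)
  choose c0 hc0 using h1
  -- make the codes functions of the traces
  have h2 : ∀ j : H0, ∃ c : U → ℕ, ∀ s s', c s = c s' ↔ u s ∩ Set.Iio j = u s' ∩ Set.Iio j := by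
    intro j
    obtain ⟨f, hf⟩ := (Set.countable_iff_exists_injective).1 (hc j)
    refine ⟨fun s => f ⟨u s ∩ Set.Iio j, s, rfl⟩, fun s s' => ⟨fun h => ?_, fun h => ?_⟩⟩
    · exact congrArg Subtype.val (hf h)
    · show f _ = f _
      congr 1
      exact Subtype.ext h
  choose c hcc using h2
  have hcut : ∀ {j j' : H0}, j' ≤ j → ∀ s s', u s ∩ Set.Iio j = u s' ∩ Set.Iio j →
      u s ∩ Set.Iio j' = u s' ∩ Set.Iio j' := by
    intro j j' hjj s s' h
    ext z
    constructor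
    · rintro ⟨h3, h4⟩
      have h5 : z ∈ u s ∩ Set.Iio j := ⟨h3, lt_of_lt_of_le h4 hjj⟩
      rw [h] at h5
      exact ⟨h5.1, h4⟩
    · rintro ⟨h3, h4⟩
      have h5 : z ∈ u s' ∩ Set.Iio j := ⟨h3, lt_of_lt_of_le h4 hjj⟩
      rw [← h] at h5
      exact ⟨h5.1, h4⟩
  obtain ⟨e, he⟩ : ∃ e : U → (H0 ×ₗ ℕ) → Bool, e = fun s z =>
      decide ((ofLex z).1 ∈ u s ∧ c (ofLex z).1 s = (ofLex z).2) := ⟨_, rfl⟩
  have het : ∀ s j m, e s (toLex (j, m)) = true ↔ (j ∈ u s ∧ c j s = m) := by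
    intro s j m
    rw [he]
    exact decide_eq_true_iff
  have hee : ∀ s s' j m, e s (toLex (j, m)) = e s' (toLex (j, m)) ↔
      ((j ∈ u s ∧ c j s = m) ↔ (j ∈ u s' ∧ c j s' = m)) := by
    intro s s' j m
    rw [← het, ← het]
    exact Bool.eq_iff_iff
  have hlt : ∀ (j j' : H0) (m m' : ℕ), (toLex (j', m') : H0 ×ₗ ℕ) < toLex (j, m) ↔
      (j' < j ∨ j' = j ∧ m' < m) := fun j j' m m' => Prod.Lex.lt_iff
  -- agreement below a level
  have hagree : ∀ j m s s', (∀ z' < (toLex (j, m) : H0 ×ₗ ℕ), e s z' = e s' z') →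
      u s ∩ Set.Iio j = u s' ∩ Set.Iio j := by
    intro j m s s' h
    by_contra hne
    have h3 : {z | z < j ∧ ¬ (z ∈ u s ↔ z ∈ u s')}.Nonempty := by
      by_contra hemp
      rw [Set.not_nonempty_iff_eq_empty] at hemp
      apply hne
      ext z
      constructor
      · rintro ⟨h4, h5⟩
        refine ⟨?_, h5⟩
        by_contra h6
        have h7 : z ∈ {z | z < j ∧ ¬ (z ∈ u s ↔ z ∈ u s')} := ⟨h5, fun h8 => h6 (h8.1 h4)⟩
        rw [hemp] at h7
        exact h7
      · rintro ⟨h4, h5⟩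
        refine ⟨?_, h5⟩
        by_contra h6
        have h7 : z ∈ {z | z < j ∧ ¬ (z ∈ u s ↔ z ∈ u s')} := ⟨h5, fun h8 => h6 (h8.2 h4)⟩
        rw [hemp] at h7
        exact h7
    obtain ⟨j', ⟨hj', hne'⟩, hmin⟩ := (wellFounded_lt (α := H0)).has_min _ h3
    have h4 : u s ∩ Set.Iio j' = u s' ∩ Set.Iio j' := by
      ext z
      constructor
      · rintro ⟨h5, h6⟩
        refine ⟨?_, h6⟩
        by_contra h7
        exact hmin z ⟨lt_trans h6 hj', fun h8 => h7 (h8.1 h5)⟩ h6
      · rintro ⟨h5, h6⟩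
        refine ⟨?_, h6⟩
        by_contra h7
        exact hmin z ⟨lt_trans h6 hj', fun h8 => h7 (h8.2 h5)⟩ h6
    have h5 : c j' s = c j' s' := (hcc j' s s').2 h4
    have h6 := (hee s s' j' (c j' s)).1 (h _ ((hlt _ _ _ _).2 (Or.inl hj')))
    apply hne'
    constructor
    · intro h7
      exact (h6.1 ⟨h7, rfl⟩).1
    · intro h7
      exact (h6.2 ⟨h7, h5.symm⟩).1
  refine ⟨e, ?_, ?_, ?_⟩
  · intro s s' hss
    have h3 : {z | ¬ (z ∈ u s ↔ z ∈ u s')}.Nonempty := by
      by_contra hemp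
      rw [Set.not_nonempty_iff_eq_empty] at hemp
      apply hss
      apply hu
      ext z
      by_contra h6
      have h7 : z ∈ {z | ¬ (z ∈ u s ↔ z ∈ u s')} := h6
      rw [hemp] at h7
      exact h7
    obtain ⟨j', hne', hmin⟩ := (wellFounded_lt (α := H0)).has_min _ h3
    have h4 : u s ∩ Set.Iio j' = u s' ∩ Set.Iio j' := by
      ext z
      constructor
      · rintro ⟨h5, h6⟩
        refine ⟨?_, h6⟩
        by_contra h7
        exact hmin z (fun h8 => h7 (h8.1 h5)) h6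
      · rintro ⟨h5, h6⟩
        refine ⟨?_, h6⟩
        by_contra h7
        exact hmin z (fun h8 => h7 (h8.2 h5)) h6
    have h5 : c j' s = c j' s' := (hcc j' s s').2 h4
    refine ⟨toLex (j', c j' s), fun h => hne' ?_⟩
    have h6 := (hee s s' j' (c j' s)).1 h
    constructor
    · intro h7
      exact (h6.1 ⟨h7, rfl⟩).1
    · intro h7
      exact (h6.2 ⟨h7, h5.symm⟩).1
  · intro z s s' v v' _ hs _ _ hv _ z' hz'
    obtain ⟨⟨j, m⟩, rfl⟩ := toLex.surjective z
    obtain ⟨⟨j', m'⟩, rfl⟩ := toLex.surjective z'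
    rw [het] at hs hv
    have h4 : u s ∩ Set.Iio j = u v ∩ Set.Iio j := (hcc j s v).1 (hs.2.trans hv.2.symm)
    rw [hee]
    rcases (hlt _ _ _ _).1 hz' with h5 | ⟨rfl, h5⟩
    · have h6 : c j' s = c j' v := (hcc j' s v).2 (hcut h5.le s v h4)
      rw [h6]
      have h7 : j' ∈ u s ↔ j' ∈ u v := by
        constructor
        · intro h8
          have h9 : j' ∈ u s ∩ Set.Iio j := ⟨h8, h5⟩
          rw [h4] at h9
          exact h9.1
        · intro h8
          have h9 : j' ∈ u v ∩ Set.Iio j := ⟨h8, h5⟩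
          rw [← h4] at h9
          exact h9.1
      rw [h7]
    · constructor
      · rintro ⟨_, h6⟩
        exact absurd (h6.symm.trans hs.2) h5.ne
      · rintro ⟨_, h6⟩
        exact absurd (h6.symm.trans hv.2) h5.ne
  · intro z
    obtain ⟨⟨j, m⟩, rfl⟩ := toLex.surjective z
    rw [Cardinal.le_aleph0_iff_set_countable]
    refine countable_range_of_factor _ (fun s => ((c j s, decide (j ∈ u s)) : ℕ × Bool)) ?_
    intro s s' h
    simp only [Prod.mk.injEq, decide_eq_decide] at h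
    obtain ⟨h1, h2⟩ := h
    have h4 : u s ∩ Set.Iio j = u s' ∩ Set.Iio j := (hcc j s s').1 h1
    funext z'
    obtain ⟨z', hz'⟩ := z'
    obtain ⟨⟨j', m'⟩, rfl⟩ := toLex.surjective z'
    show e s (toLex (j', m')) = e s' (toLex (j', m'))
    rw [hee]
    rcases (hlt _ _ _ _).1 hz' with h5 | ⟨rfl, h5⟩
    · have h6 : c j' s = c j' s' := (hcc j' s s').2 (hcut h5.le s s' h4)
      rw [h6]
      have h7 : j' ∈ u s ↔ j' ∈ u s' := by
        constructor
        · intro h8
          have h9 : j' ∈ u s ∩ Set.Iio j := ⟨h8, h5⟩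
          rw [h4] at h9
          exact h9.1
        · intro h8
          have h9 : j' ∈ u s' ∩ Set.Iio j := ⟨h8, h5⟩
          rw [← h4] at h9
          exact h9.1
      rw [h7]
    · rw [h1, h2]

/-- Countable sets in the lexicographic product are bounded. -/
theorem lex_bdd {H0 : Type} [LinearOrder H0] (hb : ∀ C : Set H0, C.Countable → ∃ b, ∀ c ∈ C, c < b)
    (C : Set (H0 ×ₗ ℕ)) (hC : C.Countable) : ∃ j0, ∀ c ∈ C, c ≤ j0 := by
  obtain ⟨b, hb⟩ := hb ((fun z : H0 ×ₗ ℕ => (ofLex z).1) '' C) (hC.image _)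
  refine ⟨toLex (b, 0), fun z hz => ?_⟩
  have h1 := hb _ ⟨z, hz, rfl⟩
  refine le_of_lt ?_
  exact Prod.Lex.lt_iff.2 (Or.inl h1)

end Pool.Agent.W931.KH
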