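import Mathlib
import Pool.Agent.W931.KH.Pos
import Pool.Agent.W931.KH.Recode

set_option autoImplicit false

/-!
# The failure of Kurepa hypotheses in the extension
-/

namespace Pool.Agent.W931.KH

open Cardinal Pool.Agent.Helper669.Forcing Pool.Agent.Helper669.K Pool.Agent.Helper669.U
  Pool.Agent.Helper669.V
open Pool.Agent.Helper669.KDelta (rec_choice small_iUnion small_biUnion small_union small_mono
  small_finite)

section

variable {L K I : Type} [LinearOrder L] [LinearOrder K] {Q : Par L K I}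

/-- Mixing the labels of two conditions. -/
theorem mix {q p1 p2 : Cd Q} (h1 : p1 ≤ q) (h2 : p2 ≤ q) (hb : p1.b = p2.b) (hT : p1.T = p2.T)
    (hA : p1.A = p2.A) (fr0 : Set I) : ∃ m ≤ q, m.b = p1.b ∧ m.T = p1.T ∧ m.A = p1.A ∧
      (∀ i ∈ fr0, m.f i = p1.f i) ∧ (∀ i ∉ fr0, m.f i = p2.f i) ∧ m.g = p2.g := by
  classical
  refine ⟨⟨p1.b, p1.T, p1.A, fun i => if i ∈ fr0 then p1.f i else p2.f i, p2.g, p1.hT, p1.htr,
    p1.hT0, p1.hA, ?_, ?_, p2.hg, ?_⟩, ?_, rfl, rfl, rfl, ?_, ?_, rfl⟩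
  · intro i γ
    by_cases h : i ∈ fr0
    · simp only [if_pos h]
      exact p1.hf i γ
    · simp only [if_neg h]
      rw [hT]
      exact p2.hf i γ
  · intro i γ hγ
    by_cases h : i ∈ fr0
    · simp only [if_pos h]
      exact p1.hf0 i γ hγ
    · simp only [if_neg h]
      exact p2.hf0 i γ (by rw [← hA]; exact hγ)
  · intro γ ξ h
    refine p2.hg0 γ ξ ?_
    rw [← hA, ← hb]
    exact h
  · refine ⟨h1.b, h1.T, h1.tr, h1.A, ?_, ?_, h2.g⟩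
    · intro i γ hγ ξ hξ
      by_cases h : i ∈ fr0
      · simp only [if_pos h]
        exact h1.f i γ hγ ξ hξ
      · simp only [if_neg h]
        exact h2.f i γ hγ ξ hξ
    · intro i ξ hξ
      by_cases h : i ∈ fr0
      · simp only [if_pos h]
        exact h1.few i ξ hξ
      · simp only [if_neg h]
        exact h2.few i ξ hξ
  · intro i h
    simp only [if_pos h]
  · intro i h
    simp only [if_neg h]

/-- The splitting happens in the components in `fr0`, or in the others. -/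
theorem dichotomy {N : L → Set (Cd Q)} {δ : K} {p : Cd Q} (hs : Splits N δ Set.univ True p)
    (fr0 : Set I) : (∃ p' ≤ p, Splits N δ fr0ᶜ True p') ∨ Splits N δ fr0 False p := by
  by_contra hcon
  push Not at hcon
  obtain ⟨hc1, hc2⟩ := hcon
  unfold Splits at hc2
  push Not at hc2
  obtain ⟨p', hp', h0⟩ := hc2
  have hc3 := hc1 p' hp'
  unfold Splits at hc3
  push Not at hc3
  obtain ⟨p'', hp'', h1⟩ := hc3
  obtain ⟨p1, hp1, p2, hp2, hlk, ξ, hN1, hN2⟩ := hs p'' (hp''.trans hp')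
  obtain ⟨m, hm, hmb, hmT, hmA, hmf, hmf', hmg⟩ := mix hp1 hp2 hlk.b hlk.T hlk.A fr0
  have l1 : Lk δ fr0ᶜ True m p1 := by
    refine ⟨hmb, hmT, hmA, ?_, ?_⟩
    · intro i γ hh
      by_cases hi : i ∈ fr0
      · rw [hmf i hi]
      · rw [hmf' i hi]
        rcases hh with hh | hh
        · exact (hlk.f i γ (Or.inl hh)).symm
        · exact absurd hi hh
    · intro γ hh
      rw [hmg]
      rcases hh with hh | hh
      · exact (hlk.g γ (Or.inl hh)).symm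
      · exact absurd trivial hh
  have l2 : Lk δ fr0 False m p2 := by
    refine ⟨hmb.trans hlk.b, hmT.trans hlk.T, hmA.trans hlk.A, ?_, ?_⟩
    · intro i γ hh
      by_cases hi : i ∈ fr0
      · rw [hmf i hi]
        rcases hh with hh | hh
        · exact hlk.f i γ (Or.inl hh)
        · exact absurd hi hh
      · rw [hmf' i hi]
    · intro γ _
      rw [hmg]
  by_cases h : ∃ m' ≤ m, m' ∈ meets (N ξ)
  · obtain ⟨m', hm', hN⟩ := h
    obtain ⟨p2', hp2', l2'⟩ := l2.transfer hm'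
    exact h0 m' (hm'.trans (hm.trans hp'')) p2' (hp2'.trans (hp2.trans hp'')) l2' ξ hN
      (down_fnot _ _ hN2 _ hp2')
  · push Not at h
    exact h1 p1 hp1 m hm l1.symm ξ hN1 h

variable [WellFoundedLT L] [WellFoundedLT K]

/-- The choice of `δ` and of a split member of the family. -/
theorem prepare {F : K → L → Set (Cd Q)} {p0 : Cd Q} (hD : p0 ∈ Distinct F) {J : Type}
    (hJ : #J < Q.kap) (ρ : J → Cardinal.{0}) (hρ : ∀ j, ρ j < Q.lam)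
    (hF : ∀ j, p0 ∈ FewTraces F (ρ j) (ρ j)) :
    ∃ δ γ, ∃ p ≤ p0, p0.A ⊆ Set.Iio δ ∧ Splits (F γ) δ Set.univ True p ∧
      ∀ j, ∀ r : Cd Q, r.A ⊆ Set.Iio δ → r ≤ p0 → ∀ x : Set L, #x = ρ j → ∃ q ≤ r,
        q.A ⊆ Set.Iio δ ∧ ∃ S : (ρ j).ord.ToType → Set L, ∀ q' ≤ q, ∃ q'' ≤ q', ∃ w, ∀ ξ ∈ x,
          (ξ ∈ S w → q'' ∈ meets (F γ ξ)) ∧ (ξ ∉ S w → q'' ∈ fnot (meets (F γ ξ))) := by
  classical
  have : Nonempty K := nonemptyK Q
  have hk0 : ℵ₀ ≤ Q.kap := Q.hkap.aleph0_le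
  have hL : #L < Q.kap := by rw [Q.hL]; exact Q.hlk
  have h1 : ∀ (r : Cd Q) (z : J × Set L), ∃ q : Cd Q, r ≤ p0 → #z.2 = ρ z.1 → (q ≤ r ∧
      ∃ S : (ρ z.1).ord.ToType → Set L, ∀ γ, ∀ q' ≤ q, ∃ q'' ≤ q', ∃ w, ∀ ξ ∈ z.2,
          (ξ ∈ S w → q'' ∈ meets (F γ ξ)) ∧ (ξ ∉ S w → q'' ∈ fnot (meets (F γ ξ)))) := by
    intro r z
    by_cases h : r ≤ p0 ∧ #z.2 = ρ z.1
    · obtain ⟨q, hq, S, hS⟩ := decide_traces (seqClosed (Q := Q)) (hρ z.1) Q.hlam.aleph0_le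
        (down_FewTraces _ _ _ _ (hF z.1) _ h.1) z.2 h.2
      exact ⟨q, fun _ _ => ⟨hq, S, hS⟩⟩
    · exact ⟨r, fun h2 h3 => absurd ⟨h2, h3⟩ h⟩
  choose R hR using h1
  obtain ⟨δ0, hδ0⟩ := Q.bddK p0.A (p0.hA.trans Q.hlk)
  obtain ⟨δ, hδ, hcl⟩ := close (Q := Q) (X := J × Set L) (by
    rw [← Cardinal.mul_def, Cardinal.mk_set]
    exact Cardinal.mul_lt_of_lt hk0 hJ (Q.hstrong _ hL)) R δ0
  obtain ⟨γ, p, hp, hs⟩ := exists_splits hD δ
  refine ⟨δ, γ, p, hp, fun γ hγ => (hδ0 γ hγ).trans hδ, hs, ?_⟩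
  intro j r hr hr0 x hx
  obtain ⟨h2, S, hS⟩ := hR r (j, x) hr0 hx
  exact ⟨R r (j, x), h2, hcl r hr (j, x), S, hS γ⟩

omit [WellFoundedLT L] [WellFoundedLT K] in
/-- A Kurepa family rules out splitting in the components with `τ i ≠ ℵ₁`. -/
theorem kill_kurepa {U : Type} (u : U → Set (ℵ₁ : Cardinal.{0}).ord.ToType)
    (hu : Function.Injective u) (hU : ℵ₁ < #U)
    (hc : ∀ j, (Set.range fun s => u s ∩ Set.Iio j).Countable) (hlam : ℵ₁ < Q.lam)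
    {N : L → Set (Cd Q)} {δ : K} {fr : Set I} {gf : Prop} {p p0 : Cd Q}
    (hs : Splits N δ fr gf p) (hfr : ∀ i ∈ fr, Q.τ i = ℵ₀ ∨ #U ≤ Q.τ i)
    (hp : p ≤ p0) (hp0 : p0.A ⊆ Set.Iio δ)
    (hδ : ∀ r : Cd Q, r.A ⊆ Set.Iio δ → r ≤ p0 → ∀ x : Set L, #x = ℵ₁ → ∃ q ≤ r,
      q.A ⊆ Set.Iio δ ∧ ∃ S : (ℵ₁ : Cardinal.{0}).ord.ToType → Set L,
        ∀ q' ≤ q, ∃ q'' ≤ q', ∃ w, ∀ ξ ∈ x,
        (ξ ∈ S w → q'' ∈ meets (N ξ)) ∧ (ξ ∉ S w → q'' ∈ fnot (meets (N ξ)))) : False := by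
  obtain ⟨e, he⟩ := exists_coding u hu hc
  have hbdd : ∀ C : Set (ℵ₁ : Cardinal.{0}).ord.ToType, C.Countable → ∃ b, ∀ c ∈ C, c < b := by
    intro C hC
    by_contra hcon
    push Not at hcon
    have h1 : IsCofinal C := fun b => hcon b
    have h2 := Order.cof_le h1
    rw [Ordinal.cof_toType, isRegular_aleph_one.cof_ord] at h2
    exact absurd (h2.trans hC.le_aleph0) (not_le.2 aleph0_lt_aleph_one)
  refine kill (U := U) (H := (ℵ₁ : Cardinal.{0}).ord.ToType ×ₗ ℕ) (ρ := ℵ₁) e he.inj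
    (aleph0_le_aleph 1) ?_ hlam hU hs he.one ?_ ?_ hp hp0 hδ
  · have h1 : #((ℵ₁ : Cardinal.{0}).ord.ToType ×ₗ ℕ) =
        #((ℵ₁ : Cardinal.{0}).ord.ToType × ℕ) := rfl
    rw [h1, ← Cardinal.mul_def, mk_ord_toType, Cardinal.mk_nat]
    exact (Cardinal.mul_eq_left (aleph0_le_aleph 1) (aleph0_le_aleph 1)
      Cardinal.aleph0_ne_zero).le
  · intro i hi z
    exact (he.cls z).trans (Q.hτ0 i)
  · intro i hi
    rcases hfr i hi with h | h
    · right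
      intro C hC
      rw [h] at hC
      exact lex_bdd hbdd C (Cardinal.le_aleph0_iff_set_countable.1 hC)
    · exact Or.inl h

omit [WellFoundedLT L] [WellFoundedLT K] in
/-- The subsets of `ℕ` rule out splitting in the components with `ℵ₁ ≤ τ i`. -/
theorem kill_reals (hCH : 2 ^ (ℵ₀ : Cardinal.{0}) = ℵ₁) (hlam : ℵ₀ < Q.lam)
    {N : L → Set (Cd Q)} {δ : K} {fr : Set I} {gf : Prop} {p p0 : Cd Q}
    (hs : Splits N δ fr gf p) (hfr : ∀ i ∈ fr, ℵ₁ ≤ Q.τ i)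
    (hp : p ≤ p0) (hp0 : p0.A ⊆ Set.Iio δ)
    (hδ : ∀ r : Cd Q, r.A ⊆ Set.Iio δ → r ≤ p0 → ∀ x : Set L, #x = ℵ₀ → ∃ q ≤ r,
      q.A ⊆ Set.Iio δ ∧ ∃ S : (ℵ₀ : Cardinal.{0}).ord.ToType → Set L,
        ∀ q' ≤ q, ∃ q'' ≤ q', ∃ w, ∀ ξ ∈ x,
        (ξ ∈ S w → q'' ∈ meets (N ξ)) ∧ (ξ ∉ S w → q'' ∈ fnot (meets (N ξ)))) : False := by
  obtain ⟨e, he⟩ := exists_coding (U := Set ℕ) (H0 := ℕ) id Function.injective_id (by
    intro j
    refine ((Set.finite_Iio j).finite_subsets).countable.mono ?_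
    rintro _ ⟨s, rfl⟩
    exact Set.inter_subset_right)
  refine kill (U := Set ℕ) (H := ℕ ×ₗ ℕ) (ρ := ℵ₀) e he.inj
    le_rfl ?_ hlam ?_ hs he.one ?_ ?_ hp hp0 hδ
  · have h1 : #(ℕ ×ₗ ℕ) = #(ℕ × ℕ) := rfl
    rw [h1]
    exact Cardinal.mk_le_aleph0
  · rw [Cardinal.mk_set, Cardinal.mk_nat]
    exact Cardinal.cantor _
  · intro i hi z
    exact (he.cls z).trans (Q.hτ0 i)
  · intro i hi
    left
    rw [Cardinal.mk_set, Cardinal.mk_nat, hCH]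
    exact hfr i hi

/-- If no `τ i` is `ℵ₁` and there is a Kurepa family on `ω₁`, then `KH(λ, ℵ₁)` fails in the
extension. -/
theorem not_KH {U : Type} (u : U → Set (ℵ₁ : Cardinal.{0}).ord.ToType)
    (hu : Function.Injective u) (hU : ℵ₁ < #U)
    (hc : ∀ j, (Set.range fun s => u s ∩ Set.Iio j).Countable) (hlam : ℵ₁ < Q.lam)
    (hτ : ∀ i, Q.τ i = ℵ₀ ∨ #U ≤ Q.τ i) (p : Cd Q) : p ∈ fnot (KurepaHyp (Cd Q) K L ℵ₁) := by
  intro q _ hq
  obtain ⟨p0, _, F, hD, hF⟩ := mem_fex.1 hq q le_rfl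
  obtain ⟨δ, γ, p, hp, hp0, hs, hδ⟩ := prepare (Q := Q) hD (J := Unit)
    (by rw [Cardinal.mk_unit]; exact lt_of_lt_of_le Cardinal.one_lt_aleph0 Q.hkap.aleph0_le)
    (fun _ => ℵ₁) (fun _ => hlam) (fun _ => hF)
  exact kill_kurepa u hu hU hc hlam hs (fun i _ => hτ i) hp hp0 (hδ ())

/-- If there is a Kurepa family on `ω₁` and CH holds, then `KH(λ, <χ)` fails in the
extension for `χ > ℵ₁`. -/
theorem not_KHLt {U : Type} (u : U → Set (ℵ₁ : Cardinal.{0}).ord.ToType)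
    (hu : Function.Injective u) (hU : ℵ₁ < #U)
    (hc : ∀ j, (Set.range fun s => u s ∩ Set.Iio j).Countable) (hCH : 2 ^ (ℵ₀ : Cardinal.{0}) = ℵ₁)
    (hlam : ℵ₁ < Q.lam) {χ : Cardinal.{0}} (hχ : ℵ₁ < χ) (p : Cd Q) :
    p ∈ fnot (KurepaHypLt (Cd Q) K L χ) := by
  intro q _ hq
  obtain ⟨p0, _, F, hD, hF⟩ := mem_fex.1 hq q le_rfl
  have hF0 : p0 ∈ FewTraces F ℵ₀ ℵ₀ := by
    have h := hF ℵ₀ (aleph0_lt_aleph_one.trans hχ)
    rwa [max_self] at h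
  have hF1 : p0 ∈ FewTraces F ℵ₁ ℵ₁ := by
    have h := hF ℵ₁ hχ
    rwa [max_eq_left (aleph0_le_aleph 1)] at h
  obtain ⟨δ, γ, p, hp, hp0, hs, hδ⟩ := prepare (Q := Q) hD (J := Bool)
    (by rw [Cardinal.mk_bool]; exact lt_of_lt_of_le (Cardinal.natCast_lt_aleph0 (n := 2))
          Q.hkap.aleph0_le)
    (fun b => if b then ℵ₁ else ℵ₀)
    (by
      intro b
      cases b
      · exact aleph0_lt_aleph_one.trans hlam
      · exact hlam)
    (by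
      intro b
      cases b
      · exact hF0
      · exact hF1)
  rcases dichotomy hs {i | Q.τ i = ℵ₀} with ⟨p', hp', hs'⟩ | hs'
  · refine kill_reals hCH (aleph0_lt_aleph_one.trans hlam) hs' ?_ (hp'.trans hp) hp0 (hδ false)
    intro i hi
    rw [← succ_aleph0, Order.succ_le_iff]
    exact lt_of_le_of_ne (Q.hτ0 i) fun h => hi h.symm
  · exact kill_kurepa u hu hU hc hlam hs' (fun i hi => Or.inl hi) hp hp0 (hδ true)

end

end Pool.Agent.W931.KH
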